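import Pool.Agent.V7H78.RP.I.J5

/-!
# Collisions at the places of good reduction
-/

set_option autoImplicit false

namespace Pool.Agent.V7H78.RP.I

open Finset

open Classical in
/-- **Few collisions.** -/
theorem gamma_bounds {ι α : Type*} (S : Finset ι) (w : ι → ℝ) (hw : ∀ v, 0 ≤ w v)
    (g : ι → α → α → ℝ) (R : ι → ℕ) (P : Finset α)
    (f : α → α) (hf : ∀ x ∈ P, f x ∈ P) (p : ℝ) (hp : 2 ≤ p)
    (hprod : ∀ i ∈ P, ∀ j ∈ P, i ≠ j → ∑ v ∈ S, w v * g v i j = 0)
    (hlow : ∀ v ∈ S, ∀ i ∈ P, ∀ j ∈ P, i ≠ j → -(2 * (R v : ℝ)) ≤ g v i j)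
    (hF : ∀ v ∈ S, R v = 0 → ∀ i ∈ P, ∀ j ∈ P, f i ≠ f j → p * g v i j ≤ g v (f i) (f j))
    (z : α) (hz : z ∈ P) (n : ℕ) (hn : 1 ≤ n)
    (hinj : ∀ s t, s < n → f^[s] z = f^[t] z → s = t)
    (c : ℕ) (hc : 1 ≤ c) (hper : ∀ t, n ≤ t → f^[c] (f^[t] z) = f^[t] z)
    (Y : Finset α) (hYP : Y ⊆ P) (hY : ∀ y ∈ Y, ∃ t, 1 ≤ t ∧ f^[t] z = y)
    (hYne : Y.Nonempty) (hpn : (Y.card : ℝ) ≤ p ^ (n - 1)) :
    (∀ i ∈ Y, ∑ v ∈ S, (if R v = 0 then w v * g v z i else 0) ≤
      2 * (∑ v ∈ S, w v * R v) / Y.card) ∧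
    ∑ v ∈ S, (if R v = 0 then w v * E2 Y (g v) else 0) ≤ 12 * Y.card * ∑ v ∈ S, w v * R v := by
  have hp0 : 0 < p := by linarith
  set N : ℝ := (Y.card : ℝ) with hNdef
  have hNpos : 0 < N := by
    rw [hNdef]
    exact_mod_cast hYne.card_pos
  set RR : ℝ := ∑ v ∈ S, w v * R v with hRR
  have hRR0 : 0 ≤ RR := sum_nonneg fun v _ => mul_nonneg (hw v) (Nat.cast_nonneg _)
  set Γ : α → α → ℝ := fun a b => ∑ v ∈ S, (if R v = 0 then w v * g v a b else 0) with hΓ
  have hΓ1 : ∀ a ∈ P, ∀ b ∈ P, a ≠ b → Γ a b ≤ 2 * RR := by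
    intro a ha b hb hab
    have h1 := hprod a ha b hb hab
    have h2 : Γ a b - 2 * RR ≤ ∑ v ∈ S, w v * g v a b := by
      simp only [hΓ, hRR, mul_sum]
      rw [← sum_sub_distrib]
      apply sum_le_sum
      intro v hv
      have h3 := mul_le_mul_of_nonneg_left (hlow v hv a ha b hb hab) (hw v)
      have h4 : 0 ≤ w v * (R v : ℝ) := mul_nonneg (hw v) (Nat.cast_nonneg _)
      split_ifs with h
      · linarith
      · linarith
    linarith
  have hΓ2 : ∀ a ∈ P, ∀ b ∈ P, f a ≠ f b → p * Γ a b ≤ Γ (f a) (f b) := by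
    intro a ha b hb hab
    simp only [hΓ, mul_sum]
    apply sum_le_sum
    intro v hv
    split_ifs with h
    · have := mul_le_mul_of_nonneg_left (hF v hv h a ha b hb hab) (hw v)
      linarith
    · simp
  have hit : ∀ m : ℕ, ∀ a ∈ P, f^[m] a ∈ P := by
    intro m
    induction m with
    | zero => exact fun a ha => ha
    | succ m ih =>
      intro a ha
      rw [Function.iterate_succ_apply']
      exact hf _ (ih a ha)
  have hΓ3 : ∀ m : ℕ, ∀ a ∈ P, ∀ b ∈ P, f^[m] a ≠ f^[m] b → p ^ m * Γ a b ≤ 2 * RR := by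
    intro m
    induction m with
    | zero =>
      intro a ha b hb hab
      rw [pow_zero, one_mul]
      exact hΓ1 a ha b hb hab
    | succ m ih =>
      intro a ha b hb hab
      rw [Function.iterate_succ_apply, Function.iterate_succ_apply] at hab
      have h1 := ih (f a) (hf a ha) (f b) (hf b hb) hab
      have h2 : f a ≠ f b := fun h => hab (by rw [h])
      have h3 := mul_le_mul_of_nonneg_left (hΓ2 a ha b hb h2) (pow_nonneg hp0.le m)
      calc p ^ (m + 1) * Γ a b = p ^ m * (p * Γ a b) := by ring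
        _ ≤ _ := h3
        _ ≤ _ := h1
  have hΓ4 : ∀ m : ℕ, ∀ a ∈ P, ∀ b ∈ P, f^[m] a ≠ f^[m] b → Γ a b ≤ 2 * RR * (p⁻¹) ^ m := by
    intro m a ha b hb hab
    have h1 := hΓ3 m a ha b hb hab
    rw [inv_pow, ← div_eq_mul_inv, le_div_iff₀ (pow_pos hp0 m)]
    linarith
  have hpinv : p⁻¹ ≤ 1 / 2 := by
    rw [inv_le_comm₀ hp0 (by norm_num)]
    norm_num
    exact hp
  have hpinv0 : 0 < p⁻¹ := by positivity
  have hcomp : ∀ m t : ℕ, f^[m] (f^[t] z) = f^[m + t] z := by
    intro m t
    rw [← Function.iterate_add_apply]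
  constructor
  · intro y hy
    obtain ⟨t, ht, rfl⟩ := hY y hy
    have h1 := hΓ4 (n - 1) z hz _ (hYP hy) (by
      rw [hcomp]
      intro h
      have := hinj (n - 1) (n - 1 + t) (by omega) h
      omega)
    refine h1.trans ?_
    rw [inv_pow, div_eq_mul_inv]
    apply mul_le_mul_of_nonneg_left _ (by positivity)
    exact inv_anti₀ hNpos hpn
  · -- the indices
    have hex : ∀ y : α, ∃ t : ℕ, y ∈ Y → f^[t] z = y := by
      intro y
      by_cases hy : y ∈ Y
      · obtain ⟨t, _, ht⟩ := hY y hy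
        exact ⟨t, fun _ => ht⟩
      · exact ⟨0, fun h => absurd h hy⟩
    choose τ hτ using hex
    set φ : α → ℝ := fun y => if τ y < n then (p⁻¹) ^ (n - 1 - τ y) else N⁻¹ with hφ
    have hφ0 : ∀ y, 0 ≤ φ y := by
      intro y
      simp only [hφ]
      split_ifs
      · positivity
      · positivity
    have hpair1 : ∀ a ∈ Y, ∀ b ∈ Y, a ≠ b → τ a < n → Γ a b ≤ 2 * RR * φ a := by
      intro a ha b hb hab hta
      simp only [hφ]
      rw [if_pos hta]
      apply hΓ4 _ a (hYP ha) b (hYP hb)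
      rw [← hτ a ha, ← hτ b hb, hcomp, hcomp]
      intro h
      have e1 : n - 1 - τ (f^[τ a] z) + τ a = n - 1 := by
        rw [hτ a ha]
        omega
      rw [e1] at h
      have h2 := hinj (n - 1) _ (by omega) h
      rw [hτ a ha] at h2
      have h3 : τ a = τ b := by omega
      apply hab
      rw [← hτ a ha, ← hτ b hb, h3]
    have hpair1' : ∀ a ∈ Y, ∀ b ∈ Y, a ≠ b → τ b < n → Γ a b ≤ 2 * RR * φ b := by
      intro a ha b hb hab htb
      simp only [hφ]
      rw [if_pos htb]
      apply hΓ4 _ a (hYP ha) b (hYP hb)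
      rw [← hτ a ha, ← hτ b hb, hcomp, hcomp]
      intro h
      have e1 : n - 1 - τ (f^[τ b] z) + τ b = n - 1 := by
        rw [hτ b hb]
        omega
      rw [e1] at h
      have h2 := hinj (n - 1) _ (by omega) h.symm
      rw [hτ b hb] at h2
      have h3 : τ a = τ b := by omega
      apply hab
      rw [← hτ a ha, ← hτ b hb, h3]
    have hpair2 : ∀ a ∈ Y, ∀ b ∈ Y, a ≠ b → ¬ τ a < n → ¬ τ b < n → Γ a b ≤ 2 * RR * φ a := by
      intro a ha b hb hab hta htb
      simp only [hφ]
      rw [if_neg hta]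
      obtain ⟨M, hM⟩ := pow_unbounded_of_one_lt N (by linarith : 1 < p)
      have hcm : ∀ y ∈ Y, ¬ τ y < n → ∀ m : ℕ, f^[c * m] y = y := by
        intro y hy hty m
        induction m with
        | zero => rfl
        | succ m ih =>
          rw [Nat.mul_succ, Function.iterate_add_apply]
          have h1 : f^[c] y = y := by
            have := hper (τ y) (by omega)
            rwa [hτ y hy] at this
          rw [h1, ih]
      have h1 := hΓ4 M a (hYP ha) b (hYP hb) (by
        intro h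
        apply hab
        have hMc : M ≤ c * M := Nat.le_mul_of_pos_left _ (by omega)
        obtain ⟨r, hr⟩ := Nat.exists_eq_add_of_le hMc
        have k1 := hcm a ha hta M
        have k2 := hcm b hb htb M
        rw [hr, add_comm, Function.iterate_add_apply] at k1 k2
        rw [← k1, ← k2, h])
      refine h1.trans ?_
      rw [inv_pow]
      apply mul_le_mul_of_nonneg_left _ (by positivity)
      exact inv_anti₀ hNpos hM.le
    have hpair : ∀ a ∈ Y, ∀ b ∈ Y, a ≠ b → Γ a b ≤ 2 * RR * φ a + 2 * RR * φ b := by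
      intro a ha b hb hab
      have k1 : 0 ≤ 2 * RR * φ a := mul_nonneg (by positivity) (hφ0 a)
      have k2 : 0 ≤ 2 * RR * φ b := mul_nonneg (by positivity) (hφ0 b)
      by_cases h1 : τ a < n
      · have := hpair1 a ha b hb hab h1
        linarith
      · by_cases h2 : τ b < n
        · have := hpair1' a ha b hb hab h2
          linarith
        · have := hpair2 a ha b hb hab h1 h2
          linarith
    -- the sum of `φ`
    have hφs : ∑ y ∈ Y, φ y ≤ 3 := by
      have h1 : ∑ y ∈ Y, φ y ≤ ∑ y ∈ Y, ((if τ y < n then (p⁻¹) ^ (n - 1 - τ y) else 0) + N⁻¹) := by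
        apply sum_le_sum
        intro y _
        simp only [hφ]
        split_ifs
        · have : 0 < N⁻¹ := by positivity
          linarith
        · linarith
      rw [sum_add_distrib, sum_const, nsmul_eq_mul, ← hNdef, mul_inv_cancel₀ hNpos.ne'] at h1
      have h2 : ∑ y ∈ Y, (if τ y < n then (p⁻¹) ^ (n - 1 - τ y) else 0) ≤ 2 := by
        rw [← sum_filter]
        have h3 : ∑ y ∈ Y.filter (fun y => τ y < n), (p⁻¹) ^ (n - 1 - τ y) =
            ∑ t ∈ (Y.filter (fun y => τ y < n)).image τ, (p⁻¹) ^ (n - 1 - t) := by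
          rw [sum_image]
          intro a ha b hb hab
          rw [Finset.mem_coe, mem_filter] at ha hb
          rw [← hτ a ha.1, ← hτ b hb.1, hab]
        rw [h3]
        have h4 : (Y.filter (fun y => τ y < n)).image τ ⊆ range n := by
          intro t ht
          obtain ⟨y, hy, rfl⟩ := mem_image.mp ht
          exact mem_range.mpr (mem_filter.mp hy).2
        refine (sum_le_sum_of_subset_of_nonneg h4 fun t _ _ => by positivity).trans ?_
        rw [sum_range_reflect (fun j => (p⁻¹) ^ j) n]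
        refine (sum_le_sum fun j _ => pow_le_pow_left₀ hpinv0.le hpinv j).trans ?_
        exact sum_geometric_two_le n
      linarith
    -- the energy
    have hE : ∑ v ∈ S, (if R v = 0 then w v * E2 Y (g v) else 0) =
        ∑ a ∈ Y, ∑ b ∈ Y, (if a = b then 0 else Γ a b) := by
      have h1 : ∀ a ∈ Y, ∀ b ∈ Y, (if a = b then 0 else Γ a b) =
          ∑ v ∈ S, (if R v = 0 then w v * (if a = b then 0 else g v a b) else 0) := by
        intro a _ b _
        simp only [hΓ]
        by_cases h : a = b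
        · simp [h]
        · simp [h]
      rw [sum_congr rfl fun a ha => sum_congr rfl fun b hb => h1 a ha b hb]
      have h2 : ∀ a ∈ Y, ∑ b ∈ Y, ∑ v ∈ S,
          (if R v = 0 then w v * (if a = b then 0 else g v a b) else 0) =
          ∑ v ∈ S, ∑ b ∈ Y, (if R v = 0 then w v * (if a = b then 0 else g v a b) else 0) :=
        fun a _ => sum_comm
      rw [sum_congr rfl h2, sum_comm]
      apply sum_congr rfl
      intro v _
      by_cases h : R v = 0
      · simp only [if_pos h]
        unfold E2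
        rw [mul_sum]
        apply sum_congr rfl
        intro a _
        rw [mul_sum]
      · simp [h]
    rw [hE]
    have h1 : ∀ a ∈ Y, ∀ b ∈ Y, (if a = b then 0 else Γ a b) ≤ 2 * RR * φ a + 2 * RR * φ b := by
      intro a ha b hb
      split_ifs with h
      · have k1 : 0 ≤ 2 * RR * φ a := mul_nonneg (by positivity) (hφ0 a)
        have k2 : 0 ≤ 2 * RR * φ b := mul_nonneg (by positivity) (hφ0 b)
        linarith
      · exact hpair a ha b hb h
    refine (sum_le_sum fun a ha => sum_le_sum fun b hb => h1 a ha b hb).trans ?_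
    simp only [sum_add_distrib, sum_const, nsmul_eq_mul, ← mul_sum, ← hNdef]
    have h2 : N * (2 * RR * ∑ y ∈ Y, φ y) ≤ N * (2 * RR * 3) :=
      mul_le_mul_of_nonneg_left (mul_le_mul_of_nonneg_left hφs (by positivity)) hNpos.le
    linarith

end Pool.Agent.V7H78.RP.I
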