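import Pool.Agent.V7H78.RP.I.J8
import Pool.Agent.V7H78.RP.I.J9
import Pool.Agent.V7H78.RP.UH.G2

/-!
# The bound for long tails
-/

set_option autoImplicit false

namespace Pool.Agent.V7H78.RP.I

open Pool.Agent.V7H78.RP.UH Pool.Agent.V7H78.RP.UB Pool.Agent.V7H78.RP.UG Finset Polynomial

universe u v w

/-- **The bound for long tails.** -/
theorem tail_bound (d : ℕ) (hd : 2 ≤ d) : ∃ N₀ M₀ : ℕ,
    ∀ (k : Type v) (K : Type u) [Field k] [Infinite k] [Field K] [Algebra k K] [DecidableEq K]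
    (Q : PlaceData.{w} k K) (l : ℕ) [Fact l.Prime] [CharP K l] (m : ℕ), d = l * m →
    ∀ (p₀ q₁ p q : Polynomial K), p = expand K l p₀ → q = expand K l q₁ → p.natDegree ≤ d →
    q.natDegree = d → IsCoprime p q →
    ∀ P : Finset K, (∀ z ∈ P, q.eval z ≠ 0 ∧ p.eval z / q.eval z ∈ P) →
    ∀ (f : K → K), (∀ z ∈ P, f z = p.eval z / q.eval z) →
    ∀ z ∈ P, ∀ n : ℕ, 1 ≤ n → (∀ s t, s < n → f^[s] z = f^[t] z → s = t) →
    ∀ c : ℕ, 1 ≤ c → (∀ t, n ≤ t → f^[c] (f^[t] z) = f^[t] z) →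
    ∀ Y ⊆ P, (∀ y ∈ Y, ∃ t, 1 ≤ t ∧ f^[t] z = y) → N₀ ≤ Y.card → Y.card ≤ 2 ^ (n - 1) →
    ∀ e : ℕ, 32 * Y.card ^ 4 ≤ 2 ^ e →
    (∀ x0 ∈ Y, ∀ x1 ∈ Y, ∀ x2 ∈ Y, ∀ x ∈ Y, x0 ≠ x1 → x0 ≠ x2 → x1 ≠ x2 → x ≠ x2 → x ≠ x0 →
      x ≠ x1 → ∃ y : K, y ^ l ^ e = ((x - x0) * (x1 - x2)) / ((x - x2) * (x1 - x0))) →
    (∀ x0 ∈ Y, ∀ x1 ∈ Y, ∀ x2 ∈ Y, D3 x0 x1 x2 →
      Q.D (((z - x0) * (x1 - x2)) / ((z - x2) * (x1 - x0))) ≠ 0) →
    Y.card ≤ (q₀ d) ^ (M₀ * Q.lossT.toNat) := by
  classical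
  have hdR : (2 : ℝ) ≤ d := by exact_mod_cast hd
  have hd1 : (0 : ℝ) < (d : ℝ) - 1 := by linarith
  set c₀ : ℝ := 1 / (8 * d * (d + 1)) with hc₀
  have hc0 : 0 < c₀ := by positivity
  have hc1 : c₀ ≤ 1 := by
    rw [hc₀, div_le_one (by positivity)]
    nlinarith
  have hq1 : 1 ≤ q₀ d := by
    unfold q₀
    have : 0 < d ^ 6 := by positivity
    have h2 : 0 < (d ^ 6 + d ^ 6) * (16 * d * (d + 1) + 1) := by positivity
    omega
  obtain ⟨n', hn'⟩ := pow_unbounded_of_one_lt (512 * Kc (q₀ d) c₀ / c₀)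
    (by linarith : (1 : ℝ) < d)
  obtain ⟨A₁, hA₁⟩ := exists_nat_ge (16 * (2 * (32 * (q₀ d) / c₀) + 4) / c₀)
  obtain ⟨A₂, hA₂⟩ := exists_nat_ge (84 * 32 * Kc (q₀ d) c₀)
  obtain ⟨M₀, hM₀⟩ := exists_nat_ge (16 * Kc (q₀ d) c₀)
  refine ⟨d ^ (2 * n') + A₁ + A₂ + 3, M₀, ?_⟩
  intro k K _ _ _ _ hdec Q l hl hch m hdl p₀ q₁ p q hpe hqe hp hq hco P hP f hf z hz n hn hinj c hc
    hper Y hYP hYt hYc hYn e he hcr hDz
  have hdec' : hdec = fun a b => Classical.propDecidable (a = b) := Subsingleton.elim _ _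
  subst hdec'
  have hres := res_ne d p q hp hq (by omega) hco
  set r := resultant q p d d with hr
  have hfP : ∀ z ∈ P, f z ∈ P := by
    intro z hz
    rw [hf z hz]
    exact (hP z hz).2
  set E : Finset K := insert r (P.image q.eval ∪ P.offDiag.image fun w => w.1 - w.2) with hE
  set S : Finset Q.Pl := Q.lossS ∪ E.biUnion (fun x => if h : x ≠ 0 then (Q.fin x h).toFinset
    else ∅) with hS
  have hSE : ∀ v, v ∉ S → ∀ x ∈ E, x ≠ 0 → Q.ord v x = 0 := by
    intro v hv x hx hx0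
    by_contra h
    apply hv
    rw [hS, Finset.mem_union]
    right
    rw [Finset.mem_biUnion]
    refine ⟨x, hx, ?_⟩
    rw [dif_pos hx0, Set.Finite.mem_toFinset]
    exact h
  have hrE : r ∈ E := Finset.mem_insert_self _ _
  have hqE : ∀ z ∈ P, q.eval z ∈ E := fun z hz => Finset.mem_insert_of_mem
    (Finset.mem_union_left _ (Finset.mem_image_of_mem _ hz))
  have hxE : ∀ x ∈ P, ∀ y ∈ P, x ≠ y → x - y ∈ E := fun x hx y hy hxy =>
    Finset.mem_insert_of_mem (Finset.mem_union_right _ (Finset.mem_image.mpr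
      ⟨(x, y), Finset.mem_offDiag.mpr ⟨hx, hy, hxy⟩, rfl⟩))
  choose a ha using fun v => exists_a d hd P (fun z => p.eval z / q.eval z)
    (fun z hz => (hP z hz).2) (fun z => (Q.ord v (q.eval z) : ℝ))
  set ρ : Q.Pl → ℝ := fun v => (Q.ord v r : ℝ) / (d * ((d : ℝ) - 1)) with hρ
  have hL : ∀ v, Nonempty (LE Q v d l (fun z => p.eval z / q.eval z) P (a v) (ρ v)) := fun v =>
    local_le Q v d hd l m hdl p₀ q₁ p q hpe hqe hp hq hco P hP (a v) (ha v) (ρ v) hres rfl
  let L : ∀ v, LE Q v d l (fun z => p.eval z / q.eval z) P (a v) (ρ v) := fun v =>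
    Classical.choice (hL v)
  have hS1 : ∀ v, v ∉ S → ∀ x ∈ P, ∀ y ∈ P, x ≠ y → Q.ord v (x - y) = 0 :=
    fun v hv x hx y hy hxy => hSE v hv _ (hxE x hx y hy hxy) (sub_ne_zero.mpr hxy)
  have hS2 : ∀ v, v ∉ S → (∀ x ∈ P, a v x = 0) ∧ ρ v = 0 := by
    intro v hv
    constructor
    · apply stable_zero d hd P (fun z => p.eval z / q.eval z) (fun z hz => (hP z hz).2)
      intro z hz
      rw [ha v z hz, hSE v hv _ (hqE z hz) (hP z hz).1]
      simp
    · simp only [hρ]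
      rw [hSE v hv r hrE hres]
      simp
  have hS3 : Q.lossS ⊆ S := Finset.subset_union_left
  have hwa : ∀ x ∈ P, ∑ v ∈ S, (Q.wt v : ℝ) * a v x = 0 := by
    apply stable_zero d hd P (fun z => p.eval z / q.eval z) (fun z hz => (hP z hz).2)
      (fun x => ∑ v ∈ S, (Q.wt v : ℝ) * a v x)
    intro z hz
    have h1 := prod_zero Q S (q.eval z) (hP z hz).1
      (fun v hv => hSE v hv _ (hqE z hz) (hP z hz).1)
    have h2 : ∑ v ∈ S, (Q.wt v : ℝ) * (Q.ord v (q.eval z) : ℝ) = 0 := by exact_mod_cast h1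
    have h3 : (d : ℝ) * ∑ v ∈ S, (Q.wt v : ℝ) * a v z =
        ∑ v ∈ S, (Q.wt v : ℝ) * (Q.ord v (q.eval z) : ℝ) +
          ∑ v ∈ S, (Q.wt v : ℝ) * a v (p.eval z / q.eval z) := by
      rw [Finset.mul_sum, ← Finset.sum_add_distrib]
      apply Finset.sum_congr rfl
      intro v _
      have := ha v z hz
      linear_combination (Q.wt v : ℝ) * this
    rw [h3, h2, zero_add]
  have hwρ : ∑ v ∈ S, (Q.wt v : ℝ) * ρ v = 0 := by
    have h1 := prod_zero Q S r hres (fun v hv => hSE v hv _ hrE hres)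
    have h2 : ∑ v ∈ S, (Q.wt v : ℝ) * (Q.ord v r : ℝ) = 0 := by exact_mod_cast h1
    have h3 : ∑ v ∈ S, (Q.wt v : ℝ) * ρ v =
        (∑ v ∈ S, (Q.wt v : ℝ) * (Q.ord v r : ℝ)) / (d * ((d : ℝ) - 1)) := by
      rw [Finset.sum_div]
      apply Finset.sum_congr rfl
      intro v _
      simp only [hρ]
      ring
    rw [h3, h2, zero_div]
  have hwt : ∀ v, (0 : ℝ) ≤ Q.wt v := fun v => by exact_mod_cast Q.wt_nonneg v
  have hwt1 : ∀ v, (1 : ℝ) ≤ Q.wt v := fun v => by exact_mod_cast Q.wt_one v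
  set g : Q.Pl → K → K → ℝ := fun v => GG Q v (a v) (ρ v) with hg
  have hpair : ∀ x ∈ P, ∀ y ∈ P, x ≠ y → ∑ v ∈ S, (Q.wt v : ℝ) * g v x y = 0 := by
    intro x hx y hy hxy
    have h1 := prod_zero Q S (x - y) (sub_ne_zero.mpr hxy) fun v hv => hS1 v hv x hx y hy hxy
    have h2 : ∑ v ∈ S, (Q.wt v : ℝ) * (Q.ord v (x - y) : ℝ) = 0 := by exact_mod_cast h1
    have h3 : ∀ v, (Q.wt v : ℝ) * g v x y = (Q.wt v : ℝ) * (Q.ord v (x - y) : ℝ) -
        (Q.wt v : ℝ) * a v x - (Q.wt v : ℝ) * a v y + (Q.wt v : ℝ) * ρ v := by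
      intro v
      simp only [hg]
      unfold GG
      ring
    simp_rw [h3]
    rw [Finset.sum_add_distrib, Finset.sum_sub_distrib, Finset.sum_sub_distrib, h2, hwa x hx,
      hwa y hy, hwρ]
    ring
  have hGG0 : ∀ v, v ∉ S → ∀ x ∈ P, ∀ y ∈ P, x ≠ y → g v x y = 0 := by
    intro v hv x hx y hy hxy
    simp only [hg]
    unfold GG
    rw [hS1 v hv x hx y hy hxy, (hS2 v hv).1 x hx, (hS2 v hv).1 y hy, (hS2 v hv).2]
    simp
  have hsym : ∀ v : Q.Pl, ∀ x y : K, Q.ord v (x - y) = Q.ord v (y - x) := by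
    intro v x y
    by_cases hxy : x = y
    · rw [hxy]
    · rw [← neg_sub y x, PlaceData.ord_neg (sub_ne_zero.mpr (Ne.symm hxy))]
  have hgs : ∀ v i j, g v i j = g v j i := by
    intro v i j
    simp only [hg]
    unfold GG
    rw [hsym v i j]
    ring
  -- the point is not in `Y`
  have hzY : z ∉ Y := by
    intro h
    obtain ⟨t, ht, h1⟩ := hYt z h
    have := hinj 0 t (by omega) (by rw [h1]; rfl)
    omega
  have hzne : ∀ y ∈ Y, z ≠ y := fun y hy h => hzY (h ▸ hy)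
  have hYne : Y.Nonempty := Finset.card_pos.mp (by omega)
  have hl2 : (2 : ℝ) ≤ l := by exact_mod_cast hl.out.two_le
  have hYnR : (Y.card : ℝ) ≤ (l : ℝ) ^ (n - 1) := by
    have h1 : (Y.card : ℝ) ≤ (2 : ℝ) ^ (n - 1) := by exact_mod_cast hYn
    exact h1.trans (pow_le_pow_left₀ (by norm_num) hl2 _)
  have heR : 32 * (Y.card : ℝ) ^ 4 ≤ (l : ℝ) ^ e := by
    have h1 : 32 * (Y.card : ℝ) ^ 4 ≤ (2 : ℝ) ^ e := by exact_mod_cast he
    exact h1.trans (pow_le_pow_left₀ (by norm_num) hl2 _)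
  have hlow : ∀ v ∈ S, ∀ i ∈ P, ∀ j ∈ P, i ≠ j → -(2 * ((L v).R : ℝ)) ≤ g v i j := by
    intro v _ i hi j hj hij
    refine le_trans ?_ ((L v).hlow i hi j hj hij)
    rw [neg_le_neg_iff, div_le_iff₀ hd1]
    have : (0 : ℝ) ≤ (L v).R := Nat.cast_nonneg _
    nlinarith
  have hiter : ∀ t, f^[t] z ∈ P := by
    intro t
    induction t with
    | zero => exact hz
    | succ t ih =>
      rw [Function.iterate_succ_apply']
      exact hfP _ ih
  obtain ⟨hG1, hG2⟩ := gamma_bounds S (fun v => (Q.wt v : ℝ)) hwt g (fun v => (L v).R) P f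
    hfP (l : ℝ) hl2 hpair hlow (by
      intro v _ hR i hi j hj hij
      have h1 := (L v).hF hR i hi j hj (by
        rw [← hf i hi, ← hf j hj]
        exact hij)
      rw [← hf i hi, ← hf j hj] at h1
      exact h1) z hz n hn hinj c hc hper Y hYP hYt hYne hYnR
  -- the main inequality
  have hmain := main_abs (q₀ d) hq1 c₀ hc0 hc1 S (fun v => (Q.wt v : ℝ)) hwt g hgs
    (fun v => (L v).R) Y z (fun i hi j hj hij => hpair i (hYP hi) j (hYP hj) hij)
    (fun v hv i hi j hj hij => hlow v hv i (hYP hi) j (hYP hj) hij) (by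
      intro v _ hR
      obtain ⟨χ, hχ⟩ := (L v).hcol hR
      refine ⟨χ, fun i hi j hj hij hc => ?_⟩
      refine le_trans (le_of_eq ?_) (hχ i (hYP hi) j (hYP hj) hij hc)
      rw [hc₀]
      ring) ((d : ℝ) ^ n') (by
      intro v _
      have h1 := (L v).hE Y hYP n' (by
        have h2 : d ^ (2 * n') ≤ Y.card := by omega
        exact_mod_cast h2)
      exact h1) (by
      intro v _ hR
      exact ⟨fun i hi => (L v).hgood hR z hz i (hYP hi) (hzne i hi),
        fun i hi j hj hij => (L v).hgood hR i (hYP hi) j (hYP hj) hij⟩) ((l : ℝ) ^ e) (by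
      intro v _
      by_cases hW : WW Y (g v) = 0
      · exact Or.inl hW
      right
      -- some term is nonzero
      have hterm : ∀ i ∈ Y, ∀ i' ∈ Y, ∀ j ∈ Y, ∀ j' ∈ Y, D4 i i' j j' →
          df (g v) i i' j j' = 0 ∨ (l : ℝ) ^ e ≤ df (g v) i i' j j' := by
        intro i hi i' hi' j hj j' hj' hD
        obtain ⟨h1, h2, h3, h4, h5, h6⟩ := hD
        obtain ⟨y, hy⟩ := hcr j hj j' hj' i' hi' i hi h2 h5.symm h6.symm h1 h3 h4
        have n1 := sub_ne_zero.mpr h3
        have n2 := sub_ne_zero.mpr h6.symm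
        have n3 := sub_ne_zero.mpr h1
        have n4 := sub_ne_zero.mpr h2.symm
        have hyne : y ≠ 0 := by
          rintro rfl
          rw [zero_pow (pow_ne_zero _ hl.out.ne_zero)] at hy
          exact div_ne_zero (mul_ne_zero n1 n2) (mul_ne_zero n3 n4) hy.symm
        have h7 : Q.ord v (i - j) + Q.ord v (j' - i') - (Q.ord v (i - i') + Q.ord v (j' - j)) =
            (l ^ e : ℕ) * Q.ord v y := by
          rw [← PlaceData.ord_pow hyne, hy, PlaceData.ord_div (mul_ne_zero n1 n2)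
            (mul_ne_zero n3 n4), Q.ord_mul v _ _ n1 n2, Q.ord_mul v _ _ n3 n4]
        have h8 : df (g v) i i' j j' = (l : ℝ) ^ e * |(Q.ord v y : ℝ)| := by
          have h9 : g v i j + g v i' j' - g v i i' - g v j j' =
              ((Q.ord v (i - j) + Q.ord v (j' - i') - (Q.ord v (i - i') + Q.ord v (j' - j)) : ℤ) :
              ℝ) := by
            simp only [hg]
            unfold GG
            rw [hsym v i' j', hsym v j j']
            push_cast
            ring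
          unfold df
          rw [h9, h7]
          push_cast
          rw [abs_mul, abs_of_nonneg (by positivity)]
        rw [h8]
        by_cases hz0 : Q.ord v y = 0
        · left
          rw [hz0]
          simp
        · right
          have h10 : (1 : ℝ) ≤ |(Q.ord v y : ℝ)| := by
            have := Int.one_le_abs hz0
            exact_mod_cast this
          have h11 : (0 : ℝ) ≤ (l : ℝ) ^ e := by positivity
          nlinarith
      have hnn : ∀ i ∈ Y, ∀ i' ∈ Y, ∀ j ∈ Y, ∀ j' ∈ Y,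
          0 ≤ (if D4 i i' j j' then df (g v) i i' j j' else 0) := by
        intro i _ i' _ j _ j' _
        split_ifs
        · exact df_nonneg _ _ _ _ _
        · exact le_rfl
      unfold WW at hW ⊢
      obtain ⟨i, hi, hi0⟩ := Finset.exists_ne_zero_of_sum_ne_zero hW
      obtain ⟨i', hi', hi0'⟩ := Finset.exists_ne_zero_of_sum_ne_zero hi0
      obtain ⟨j, hj, hj0⟩ := Finset.exists_ne_zero_of_sum_ne_zero hi0'
      obtain ⟨j', hj', hj0'⟩ := Finset.exists_ne_zero_of_sum_ne_zero hj0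
      have hD : D4 i i' j j' := by
        by_contra h
        rw [if_neg h] at hj0'
        exact hj0' rfl
      rw [if_pos hD] at hj0'
      have k0 := (hterm i hi i' hi' j hj j' hj' hD).resolve_left hj0'
      have k1 : (if D4 i i' j j' then df (g v) i i' j j' else 0) ≤ _ :=
        Finset.single_le_sum (hnn i hi i' hi' j hj) hj'
      have k2 := Finset.single_le_sum (fun j hj => Finset.sum_nonneg (hnn i hi i' hi' j hj)) hj
      have k3 := Finset.single_le_sum (fun i' hi' => Finset.sum_nonneg fun j hj =>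
        Finset.sum_nonneg (hnn i hi i' hi' j hj)) hi'
      have k4 := Finset.single_le_sum (fun i hi => Finset.sum_nonneg fun i' hi' =>
        Finset.sum_nonneg fun j hj => Finset.sum_nonneg (hnn i hi i' hi' j hj)) hi
      rw [if_pos hD] at k1
      exact k0.trans (k1.trans (k2.trans (k3.trans k4)))) (Q.lossT : ℝ) (by
      have h1 : 0 ≤ ∑ v ∈ Q.lossS, Q.wt v * Q.loss v := Finset.sum_nonneg fun v _ =>
        mul_nonneg (Q.wt_nonneg v) (Q.loss_nonneg v)
      have h2 : 0 ≤ Q.lossT := h1.trans Q.loss_sum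
      exact_mod_cast h2) (by
      intro i hi j hj x hx hD3
      exact mason_GG Q a ρ z i j x (hzne i hi) (hzne j hj) (hzne x hx) hD3
        (hDz i hi j hj x hx hD3) S hS3 (by
          intro v hv x1 hx1 x2 hx2 hne
          have hmem : ∀ y ∈ ({z, i, j, x} : Finset K), y ∈ P := by
            intro y hy
            simp only [Finset.mem_insert, Finset.mem_singleton] at hy
            rcases hy with rfl | rfl | rfl | rfl
            · exact hz
            · exact hYP hi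
            · exact hYP hj
            · exact hYP hx
          exact hS1 v hv x1 (hmem _ hx1) x2 (hmem _ hx2) hne)) hG1 hG2 (by
      have h1 : (A₁ : ℝ) ≤ Y.card := by
        have : A₁ ≤ Y.card := by omega
        exact_mod_cast this
      exact hA₁.trans h1) (by
      have h1 : (A₂ : ℝ) ≤ Y.card := by
        have : A₂ ≤ Y.card := by omega
        exact_mod_cast this
      exact hA₂.trans h1) hn'.le heR
  have hgood : ∀ v, (L v).R = 0 → ∀ x ∈ P, ∀ y ∈ P, x ≠ y → 0 ≤ g v x y := by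
    intro v hv x hx y hy hxy
    obtain ⟨mm, hmm⟩ := (L v).hgood hv x hx y hy hxy
    simp only [hg]
    rw [hmm]
    exact Nat.cast_nonneg _
  -- the bad places
  set Bd := S.filter fun v => 1 ≤ (L v).R with hBd
  have hBne : Bd.Nonempty := by
    rw [Finset.nonempty_iff_ne_empty]
    intro h0
    have hR0 : ∀ v ∈ S, (L v).R = 0 := by
      intro v hv
      by_contra hne
      have : v ∈ Bd := Finset.mem_filter.mpr ⟨hv, Nat.one_le_iff_ne_zero.mpr hne⟩
      rw [h0] at this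
      exact absurd this (Finset.notMem_empty v)
    have hGGz : ∀ v, ∀ x ∈ P, ∀ y ∈ P, x ≠ y → g v x y = 0 := by
      intro v x hx y hy hxy
      by_cases hv : v ∈ S
      · have h1 := (Finset.sum_eq_zero_iff_of_nonneg (fun v hv => mul_nonneg (hwt v)
          (hgood v (hR0 v hv) x hx y hy hxy))).mp (hpair x hx y hy hxy) v hv
        rcases mul_eq_zero.mp h1 with h2 | h2
        · have := hwt1 v
          linarith
        · exact h2
      · exact hGG0 v hv x hx y hy hxy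
    obtain ⟨i, j, x, hi, hj, hx, hij, hix, hjx⟩ := Finset.two_lt_card_iff.mp
      (by omega : 2 < Y.card)
    apply hDz i hi j hj x hx ⟨hij, hix, hjx⟩
    have n1 := sub_ne_zero.mpr (hzne i hi)
    have n2 := sub_ne_zero.mpr hjx
    have n3 := sub_ne_zero.mpr (hzne x hx)
    have n4 := sub_ne_zero.mpr hij.symm
    obtain ⟨c, hc⟩ := Q.const _ (div_ne_zero (mul_ne_zero n1 n2) (mul_ne_zero n3 n4)) (by
      intro v
      rw [PlaceData.ord_div (mul_ne_zero n1 n2) (mul_ne_zero n3 n4), Q.ord_mul v _ _ n1 n2,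
        Q.ord_mul v _ _ n3 n4]
      have g1 := hGGz v z hz i (hYP hi) (hzne i hi)
      have g2 := hGGz v j (hYP hj) x (hYP hx) hjx
      have g3 := hGGz v z hz x (hYP hx) (hzne x hx)
      have g4 := hGGz v j (hYP hj) i (hYP hi) hij.symm
      simp only [hg] at g1 g2 g3 g4
      unfold GG at g1 g2 g3 g4
      have g5 : (Q.ord v (z - i) : ℝ) + Q.ord v (j - x) -
          (Q.ord v (z - x) + Q.ord v (j - i)) = 0 := by linarith
      have g6 : Q.ord v (z - i) + Q.ord v (j - x) -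
          (Q.ord v (z - x) + Q.ord v (j - i)) = 0 := by exact_mod_cast g5
      omega)
    rw [← hc, Derivation.map_algebraMap]
  have hcardB : Y.card ≤ (q₀ d) ^ Bd.card := by
    by_contra hcon
    push Not at hcon
    obtain ⟨v₀, hv₀⟩ := hBne
    have hcol : ∀ v, ∃ χ : K → Fin (q₀ d), v ∈ Bd → ∀ x ∈ P, ∀ y ∈ P,
        x ≠ y → χ x = χ y → 0 < g v x y := by
      intro v
      have key : ∀ v ∈ Bd, ∃ χ : K → Fin (q₀ d), ∀ x ∈ P, ∀ y ∈ P,
          x ≠ y → χ x = χ y → 0 < g v x y := by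
        intro v hv
        have hR := (Finset.mem_filter.mp hv).2
        obtain ⟨χ, hχ⟩ := (L v).hcol hR
        refine ⟨χ, fun x hx y hy hxy hc => lt_of_lt_of_le ?_ (hχ x hx y hy hxy hc)⟩
        have : (1 : ℝ) ≤ (L v).R := by exact_mod_cast hR
        positivity
      by_cases hv : v ∈ Bd
      · obtain ⟨χ, hχ⟩ := key v hv
        exact ⟨χ, fun _ => hχ⟩
      · obtain ⟨χ, hχ⟩ := key v₀ hv₀
        exact ⟨χ, fun h => absurd h hv⟩
    choose χ hχ using hcol
    obtain ⟨x, hx, y, hy, hxy, hc⟩ := Finset.exists_ne_map_eq_of_card_lt_of_maps_to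
      (s := Y) (t := (Finset.univ : Finset ({v // v ∈ Bd} → Fin (q₀ d))))
      (f := fun x => fun v : {v // v ∈ Bd} => χ v.1 x) (by
        rw [Finset.card_univ, Fintype.card_fun, Fintype.card_fin, Fintype.card_coe]
        exact hcon) (fun _ _ => Finset.mem_univ _)
    have hlt : ∀ v ∈ Bd, 0 < g v x y := fun v hv =>
      hχ v hv x (hYP hx) y (hYP hy) hxy (congrFun hc ⟨v, hv⟩)
    have hsum : 0 < ∑ v ∈ S, (Q.wt v : ℝ) * g v x y := by
      apply Finset.sum_pos'
      · intro v hv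
        apply mul_nonneg (hwt v)
        by_cases hvB : v ∈ Bd
        · exact (hlt v hvB).le
        · apply hgood v _ x (hYP hx) y (hYP hy) hxy
          by_contra hne
          exact hvB (Finset.mem_filter.mpr ⟨hv, Nat.one_le_iff_ne_zero.mpr hne⟩)
      · refine ⟨v₀, (Finset.mem_filter.mp hv₀).1, mul_pos ?_ (hlt v₀ hv₀)⟩
        linarith [hwt1 v₀]
    rw [hpair x (hYP hx) y (hYP hy) hxy] at hsum
    exact lt_irrefl _ hsum
  have hBc : (Bd.card : ℝ) ≤ ∑ v ∈ S, (Q.wt v : ℝ) * (L v).R := by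
    have h3 : ∑ v ∈ Bd, (Q.wt v : ℝ) * (L v).R ≤ ∑ v ∈ S, (Q.wt v : ℝ) * (L v).R :=
      Finset.sum_le_sum_of_subset_of_nonneg (Finset.filter_subset _ _) fun v _ _ =>
        mul_nonneg (hwt v) (Nat.cast_nonneg _)
    refine le_trans ?_ h3
    have h4 : (Bd.card : ℝ) = ∑ v ∈ Bd, (1 : ℝ) := by simp
    rw [h4]
    apply Finset.sum_le_sum
    intro v hv
    have h5 : (1 : ℝ) ≤ (L v).R := by exact_mod_cast (Finset.mem_filter.mp hv).2
    have h6 := hwt1 v
    nlinarith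
  have hBc2 : Bd.card ≤ M₀ * Q.lossT.toNat := by
    have h1 := hBc.trans hmain
    have h2 : (Q.lossT : ℝ) ≤ (Q.lossT.toNat : ℝ) := by exact_mod_cast Int.self_le_toNat _
    have h0 : (0 : ℝ) ≤ 16 * Kc (q₀ d) c₀ := by
      unfold Kc
      positivity
    have h3 : (Bd.card : ℝ) ≤ (M₀ : ℝ) * (Q.lossT.toNat : ℝ) := by
      refine h1.trans ((mul_le_mul_of_nonneg_left h2 h0).trans ?_)
      exact mul_le_mul_of_nonneg_right hM₀ (Nat.cast_nonneg _)
    exact_mod_cast h3
  exact hcardB.trans (Nat.pow_le_pow_right hq1 hBc2)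

end Pool.Agent.V7H78.RP.I
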