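import Pool.Agent.V7H78.RP.UH.L9

/-!
# Inseparable maps are contracting at places of good reduction
-/

set_option autoImplicit false

namespace Pool.Agent.V7H78.RP.I

open Pool.Agent.V7H78.RP.UH Pool.Agent.V7H78.RP.UG Finset Polynomial

variable {Ω : Type*} [NormedField Ω] [IsUltrametricDist Ω]

/-- Frobenius on vectors -/
def fr {R : Type*} [Monoid R] (l : ℕ) (X : R × R) : R × R := (X.1 ^ l, X.2 ^ l)

lemma hev_expand {R : Type*} [CommSemiring R] (l m : ℕ) (hl : 0 < l) (p : Polynomial R)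
    (X : R × R) : hev (l * m) (expand R l p) X = hev m p (fr l X) := by
  unfold hev fr
  rw [← Finset.sum_subset (s₁ := (Finset.range (m + 1)).image fun i => l * i)
    (s₂ := Finset.range (l * m + 1))]
  · rw [Finset.sum_image]
    · apply Finset.sum_congr rfl
      intro i _
      rw [coeff_expand_mul' hl, ← pow_mul, ← pow_mul, Nat.mul_sub]
    · intro i _ j _ h
      exact Nat.eq_of_mul_eq_mul_left hl h
  · intro i hi
    obtain ⟨j, hj, rfl⟩ := Finset.mem_image.mp hi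
    rw [Finset.mem_range] at hj ⊢
    have := Nat.mul_le_mul_left l (Nat.lt_succ_iff.mp hj)
    omega
  · intro i hi hi'
    rw [coeff_expand hl]
    rw [if_neg, zero_mul, zero_mul]
    rintro ⟨j, rfl⟩
    apply hi'
    refine Finset.mem_image.mpr ⟨j, ?_, rfl⟩
    rw [Finset.mem_range] at hi ⊢
    have h1 : l * j < l * (m + 1) := by
      calc l * j < l * m + 1 := hi
        _ ≤ l * m + l := by omega
        _ = l * (m + 1) := by ring
    exact Nat.lt_of_mul_lt_mul_left h1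

omit [IsUltrametricDist Ω] in
lemma wd_fr (l : ℕ) [Fact l.Prime] [CharP Ω l] (X Y : Ω × Ω) :
    wd (fr l X) (fr l Y) = wd X Y ^ l := by
  unfold wd fr
  rw [sub_pow_char, mul_pow, mul_pow]

/-- The contraction property of inseparable maps. -/
lemma lip_insep [IsAlgClosed Ω] (l : ℕ) [hl : Fact l.Prime] [CharP Ω l] (B : Fam Ω)
    (m : ℕ) (hm : 1 ≤ m) (p q : Polynomial Ω) (hp : p.natDegree ≤ m) (hq : q.natDegree = m)
    (hco : IsCoprime p q) (U V : Ω × Ω) (hw : wd U V ≠ 0) (s : Ω) (F : Ω × Ω → Ω × Ω)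
    (hF : ∀ X, F X = s • gi U V (bF (l * m) (expand Ω l p) (expand Ω l q) (gm U V X)))
    (hF1 : ∀ X, ‖X‖ = 1 → ‖F X‖ ≤ 1) {X X' Z : Ω × Ω} (hX : ‖X‖ = 1) (hX' : ‖X'‖ = 1)
    (hZ : ‖Z‖ = 1) (t : Ω) (h : F X' = t • Z) : ‖wd (F X) Z‖ ≤ ‖wd X X'‖ ^ l := by
  classical
  have hZ0 : Z ≠ 0 := by
    rintro rfl
    simp at hZ
  have hgi0 : ∀ W : Ω × Ω, W ≠ 0 → gi U V W ≠ 0 := by
    intro W hW h0
    apply hW
    rw [← gm_gi hw W, h0]
    unfold gm
    simp
  have hgm0 : ∀ W : Ω × Ω, W ≠ 0 → gm U V W ≠ 0 := by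
    intro W hW h0
    apply hW
    rw [← gi_gm hw W, h0]
    unfold gi wd
    simp
  obtain ⟨c, η, hc, hη, hr⟩ := bF_roots m p q hp hq hm hco (gm U V Z) (hgm0 Z hZ0)
  have hroot : ∀ y : Ω, ∃ z : Ω, z ^ l = y := fun y => IsAlgClosed.exists_pow_nat_eq y hl.out.pos
  choose r hr' using hroot
  set θ : Fin m → Ω × Ω := fun i => (r (η i).1, r (η i).2) with hθ
  have hθη : ∀ i, fr l (θ i) = η i := by
    intro i
    unfold fr
    simp only [hθ, hr']
  have hθ0 : ∀ i, θ i ≠ 0 := by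
    intro i h0
    have h1 := hη i
    rw [← hθη i, h0] at h1
    unfold fr at h1
    simp [hl.out.ne_zero] at h1
  choose τ ζ hτ hζ hτζ _ using fun i => exists_unit (gi U V (θ i)) (hgi0 _ (hθ0 i))
  set c₃ : Ω := s * (wd U V)⁻¹ * c * ∏ i, (wd U V * τ i) ^ l with hc₃
  have key : ∀ X : Ω × Ω, wd (F X) Z = c₃ * ∏ i, (wd X (ζ i)) ^ l := by
    intro X
    rw [hF, wd_smul_left, wd_gi hw]
    have h1 : bF (l * m) (expand Ω l p) (expand Ω l q) (gm U V X) = bF m p q (fr l (gm U V X)) := by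
      unfold bF
      rw [hev_expand l m hl.out.pos, hev_expand l m hl.out.pos]
    rw [h1, hr, hc₃]
    have h2 : ∏ i, wd (fr l (gm U V X)) (η i) = (∏ i, (wd U V * τ i) ^ l) *
        ∏ i, (wd X (ζ i)) ^ l := by
      rw [← Finset.prod_mul_distrib]
      apply Finset.prod_congr rfl
      intro i _
      rw [← hθη i, wd_fr, wd_gm_left hw, hτζ i, wd_smul_right]
      ring
    rw [h2]
    ring
  -- the size of the constant
  obtain ⟨E, hE⟩ := bad_finite B (Finset.univ.image ζ) (by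
    intro W hW
    rw [Finset.mem_image] at hW
    obtain ⟨i, _, rfl⟩ := hW
    exact hζ i)
  obtain ⟨i, hi⟩ := Infinite.exists_notMem_finset E
  have hc₃1 : ‖c₃‖ ≤ 1 := by
    have h1 := key (B.b i)
    have h2 : ‖wd (F (B.b i)) Z‖ = ‖c₃‖ := by
      rw [h1, norm_mul, norm_prod]
      rw [Finset.prod_eq_one, mul_one]
      intro j _
      rw [norm_pow, hE i hi _ (Finset.mem_image_of_mem _ (Finset.mem_univ j)), one_pow]
    rw [← h2]
    refine (norm_wd_le _ _).trans ?_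
    rw [hZ, mul_one]
    exact hF1 _ (B.unit i)
  by_cases hc0 : c₃ = 0
  · rw [key, hc0, zero_mul, norm_zero]
    positivity
  have h1 := key X'
  rw [h, wd_smul_left, wd_self, mul_zero] at h1
  have h2 := (mul_eq_zero.mp h1.symm).resolve_left hc0
  obtain ⟨j, _, hj⟩ := Finset.prod_eq_zero_iff.mp h2
  have hj' : wd X' (ζ j) = 0 := eq_zero_of_pow_eq_zero hj
  have hζ0 : ζ j ≠ 0 := by
    intro h0
    have := hζ j
    rw [h0] at this
    simp at this
  obtain ⟨u, hu⟩ := (wd_zero_iff hζ0).mp hj'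
  have hu1 : ‖u‖ = 1 := by
    rw [hu, norm_smul, hζ j, mul_one] at hX'
    exact hX'
  have h3 : ‖wd X X'‖ = ‖wd X (ζ j)‖ := by
    rw [hu, wd_smul_right, norm_mul, hu1, one_mul]
  rw [key, norm_mul, norm_prod, h3]
  have h4 : ∏ i, ‖wd X (ζ i) ^ l‖ ≤ ‖wd X (ζ j)‖ ^ l := by
    rw [← Finset.mul_prod_erase _ _ (Finset.mem_univ j), norm_pow]
    apply mul_le_of_le_one_right (by positivity)
    apply Finset.prod_le_one
    · intro i _
      exact norm_nonneg _
    · intro i _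
      rw [norm_pow]
      apply pow_le_one₀ (norm_nonneg _)
      refine (norm_wd_le _ _).trans ?_
      rw [hX, hζ, one_mul]
  calc ‖c₃‖ * ∏ i, ‖wd X (ζ i) ^ l‖ ≤ 1 * ‖wd X (ζ j)‖ ^ l := by
        apply mul_le_mul hc₃1 h4 _ zero_le_one
        exact Finset.prod_nonneg fun i _ => norm_nonneg _
    _ = _ := one_mul _

end Pool.Agent.V7H78.RP.I
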