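import Pool.Agent.V7H78.RP.I.J2
import Pool.Agent.V7H78.RP.UH.L11

/-!
# The local data for inseparable maps
-/

set_option autoImplicit false

namespace Pool.Agent.V7H78.RP.I

open Pool.Agent.V7H78.RP.UH Pool.Agent.V7H78.RP.UB Pool.Agent.V7H78.RP.UG Finset Polynomial

universe u

/-- local data at a place -/
structure LE {k : Type*} {K : Type u} [Field k] [Field K] [Algebra k K] [DecidableEq K]
    (Q : PlaceData k K) (v : Q.Pl) (d l : ℕ) (f : K → K) (P : Finset K) (a : K → ℝ) (ρ : ℝ) where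
  R : ℕ
  hcol : 1 ≤ R → ∃ χ : K → Fin (q₀ d), ∀ z ∈ P, ∀ z' ∈ P, z ≠ z' → χ z = χ z' →
    (R : ℝ) / (8 * d * (d + 1)) ≤ GG Q v a ρ z z'
  hlow : ∀ z ∈ P, ∀ z' ∈ P, z ≠ z' → -(2 * R / ((d : ℝ) - 1)) ≤ GG Q v a ρ z z'
  hgood : R = 0 → ∀ z ∈ P, ∀ z' ∈ P, z ≠ z' → ∃ m : ℕ, GG Q v a ρ z z' = m
  hE : ∀ Y ⊆ P, ∀ n : ℕ, (d : ℝ) ^ (2 * n) ≤ Y.card →
    -(4 * (Y.card : ℝ) ^ 2 * R / (d : ℝ) ^ n) ≤
      ∑ z ∈ Y, ∑ z' ∈ Y, if z = z' then 0 else GG Q v a ρ z z'
  hF : R = 0 → ∀ z ∈ P, ∀ z' ∈ P, f z ≠ f z' → (l : ℝ) * GG Q v a ρ z z' ≤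
    GG Q v a ρ (f z) (f z')

variable {k : Type*} {K : Type u} [Field k] [Field K] [Algebra k K] [DecidableEq K]

/-- **The local theorem for inseparable maps.** -/
theorem local_le [Infinite k] (Q : PlaceData k K) (v : Q.Pl) (d : ℕ) (hd : 2 ≤ d)
    (l : ℕ) [hl : Fact l.Prime] [CharP K l] (m : ℕ) (hdl : d = l * m) (p₀ q₁ : Polynomial K)
    (p q : Polynomial K) (hpe : p = expand K l p₀) (hqe : q = expand K l q₁)
    (hp : p.natDegree ≤ d) (hq : q.natDegree = d) (hco : IsCoprime p q)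
    (P : Finset K) (hP : ∀ z ∈ P, q.eval z ≠ 0 ∧ p.eval z / q.eval z ∈ P) (a : K → ℝ)
    (ha : ∀ z ∈ P, (d : ℝ) * a z = Q.ord v (q.eval z) + a (p.eval z / q.eval z)) (ρ : ℝ)
    (hres : resultant q p d d ≠ 0)
    (hρ : ρ = (Q.ord v (resultant q p d d) : ℝ) / (d * ((d : ℝ) - 1))) :
    Nonempty (LE Q v d l (fun z => p.eval z / q.eval z) P a ρ) := by
  classical
  have hdR : (2 : ℝ) ≤ d := by exact_mod_cast hd
  have hd1 : (0 : ℝ) < (d : ℝ) - 1 := by linarith
  by_cases hπ : ∃ π : K, π ≠ 0 ∧ Q.ord v π ≠ 0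
  swap
  · push Not at hπ
    have hρ0 : ρ = 0 := by
      rw [hρ, hπ _ hres]
      simp
    have ha0 : ∀ z ∈ P, a z = 0 := by
      apply stable_zero d hd P (fun z => p.eval z / q.eval z) (fun z hz => (hP z hz).2) a
      intro z hz
      rw [ha z hz, hπ _ (hP z hz).1]
      simp
    have hGG0 : ∀ z ∈ P, ∀ z' ∈ P, z ≠ z' → GG Q v a ρ z z' = 0 := by
      intro z hz z' hz' h
      unfold GG
      rw [hπ _ (sub_ne_zero.mpr h), ha0 z hz, ha0 z' hz', hρ0]
      simp
    refine ⟨⟨0, fun h => by omega, ?_, ?_, ?_, ?_⟩⟩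
    · intro z hz z' hz' h
      rw [hGG0 z hz z' hz' h]
      simp
    · intro _ z hz z' hz' h
      exact ⟨0, by rw [hGG0 z hz z' hz' h]; simp⟩
    · intro Y hY n _
      have h1 : ∑ z ∈ Y, ∑ z' ∈ Y, (if z = z' then 0 else GG Q v a ρ z z') = 0 := by
        apply Finset.sum_eq_zero
        intro z hz
        apply Finset.sum_eq_zero
        intro z' hz'
        split_ifs with h
        · rfl
        · exact hGG0 z (hY hz) z' (hY hz') h
      rw [h1]
      simp
    · intro _ z hz z' hz' h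
      have hne : z ≠ z' := fun h' => h (by rw [h'])
      rw [hGG0 z hz z' hz' hne, hGG0 _ (hP z hz).2 _ (hP z' hz').2 h, mul_zero]
  obtain ⟨π, hπ0, hπ1⟩ := hπ
  obtain ⟨Ω, _, _, _, ι, hι⟩ := exists_ext Q v π hπ0 hπ1
  have hch : CharP Ω l := charP_of_injective_ringHom ι.injective l
  have hlog : ∀ x : K, x ≠ 0 → -Real.log ‖ι x‖ = Q.ord v x := by
    intro x hx
    rw [hι x hx, Real.log_exp, neg_neg]
  let κ : ℕ → K := fun i => algebraMap k K (Infinite.natEmbedding k i)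
  have hκinj : ∀ i j, κ i = κ j → i = j := by
    intro i j h
    exact (Infinite.natEmbedding k).injective ((algebraMap k K).injective h)
  have hκ : IsFam ι κ := by
    constructor
    · intro i
      by_cases h0 : κ i = 0
      · rw [h0, map_zero, norm_zero]
        exact zero_le_one
      · rw [hι _ h0]
        have h1 : Infinite.natEmbedding k i ≠ 0 := by
          intro h
          apply h0
          show algebraMap k K (Infinite.natEmbedding k i) = 0
          rw [h, map_zero]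
        rw [Q.ord_alg v _ h1]
        simp
    · intro i j hij
      have h1 : Infinite.natEmbedding k i - Infinite.natEmbedding k j ≠ 0 := by
        rw [sub_ne_zero]
        exact fun h => hij ((Infinite.natEmbedding k).injective h)
      have h2 : κ i - κ j =
          algebraMap k K (Infinite.natEmbedding k i - Infinite.natEmbedding k j) := by
        rw [map_sub]
      have h3 : κ i - κ j ≠ 0 := by
        rw [h2]
        exact (_root_.map_ne_zero _).mpr h1
      rw [hι _ h3, h2, Q.ord_alg v _ h1]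
      simp
  obtain ⟨U, V, s, R, t, X, A, hUV, hs, hR, hX, hAb, hE, hC, hI⟩ :=
    local_vec2 ι (Q.ord v) hι hκ d hd p q hp hq hco P hP a ha
  rw [← hρ] at hR
  set W : K := wd U V with hW
  have hwdne : ∀ z z' : K, z ≠ z' → wd (X z) (X z') ≠ 0 := by
    intro z z' hne h
    have h1 := wd_gmK U V (X z) (X z')
    rw [h, mul_zero] at h1
    have h2 : wd (t z • gmK U V (X z)) (t z' • gmK U V (X z')) = 0 := by
      rw [wd_smul_left, wd_smul_right, h1, mul_zero, mul_zero]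
    rw [(hX z).2.2.1, (hX z').2.2.1] at h2
    unfold wd at h2
    simp only [mul_one, one_mul] at h2
    exact hne (sub_eq_zero.mp h2)
  have hwdne' : ∀ z z' : K, z ≠ z' → wd (vm ι (X z)) (vm ι (X z')) ≠ 0 := by
    intro z z' hne
    rw [vm_wd]
    exact (_root_.map_ne_zero ι).mpr (hwdne z z' hne)
  have hlogw : ∀ z z' : K, z ≠ z' → -Real.log ‖wd (vm ι (X z)) (vm ι (X z'))‖ =
      Q.ord v (wd (X z) (X z')) := by
    intro z z' hne
    rw [vm_wd, hlog _ (hwdne z z' hne)]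
  have hzz : ∀ z z' : K, z - z' = t z * t z' * (W * wd (X z) (X z')) := by
    intro z z'
    have h2 : wd (t z • gmK U V (X z)) (t z' • gmK U V (X z')) =
        t z * t z' * (W * wd (X z) (X z')) := by
      rw [wd_smul_left, wd_smul_right, wd_gmK]
      ring
    rw [(hX z).2.2.1, (hX z').2.2.1] at h2
    rw [← h2]
    unfold wd
    ring
  have hordzz : ∀ z z' : K, z ≠ z' → (Q.ord v (z - z') : ℝ) =
      Q.ord v (t z) + Q.ord v (t z') + Q.ord v W + Q.ord v (wd (X z) (X z')) := by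
    intro z z' hne
    rw [hzz z z', Q.ord_mul v _ _ (mul_ne_zero (hX z).1 (hX z').1)
      (mul_ne_zero hUV (hwdne z z' hne)), Q.ord_mul v _ _ (hX z).1 (hX z').1,
      Q.ord_mul v _ _ hUV (hwdne z z' hne)]
    push_cast
    ring
  have hGG : ∀ z z' : K, z ≠ z' → -Real.log ‖wd (vm ι (X z)) (vm ι (X z'))‖ - A z - A z' +
      (R : ℝ) / (d * ((d : ℝ) - 1)) = GG Q v a ρ z z' := by
    intro z z' hne
    unfold GG
    rw [hlogw z z' hne, hordzz z z' hne, (hX z).2.2.2, (hX z').2.2.2, hR]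
    ring
  have hlw0 : ∀ z z' : K, z ≠ z' → 0 ≤ -Real.log ‖wd (vm ι (X z)) (vm ι (X z'))‖ := by
    intro z z' hne
    rw [neg_nonneg]
    apply Real.log_nonpos (norm_nonneg _)
    refine (norm_wd_le _ _).trans ?_
    rw [(hX z).2.1, (hX z').2.1, one_mul]
  have hR0 : (0 : ℝ) ≤ (R : ℝ) / (d * ((d : ℝ) - 1)) := by positivity
  have hAz : R = 0 → ∀ y ∈ P, A y = 0 := by
    intro hR0' y hy
    have h1 := hAb y hy
    rw [hR0'] at h1
    simp only [Nat.cast_zero, zero_div] at h1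
    exact le_antisymm h1.2 h1.1
  have hGG0 : R = 0 → ∀ z ∈ P, ∀ z' ∈ P, z ≠ z' → GG Q v a ρ z z' =
      -Real.log ‖wd (vm ι (X z)) (vm ι (X z'))‖ := by
    intro hR0' z hz z' hz' hne
    rw [← hGG z z' hne, hAz hR0' z hz, hAz hR0' z' hz', hR0']
    simp
  refine ⟨⟨R, ?_, ?_, ?_, ?_, ?_⟩⟩
  · intro hR1
    obtain ⟨χ, hχ⟩ := hC hR1
    refine ⟨χ, fun z hz z' hz' hne hc => ?_⟩
    have h1 := hχ z hz z' hz' hne hc
    have h2 := hχ z' hz' z hz hne.symm hc.symm
    rw [wd_comm, norm_neg] at h2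
    rw [← hGG z z' hne]
    linarith
  · intro z hz z' hz' hne
    rw [← hGG z z' hne]
    have h1 := (hAb z hz).2
    have h2 := (hAb z' hz').2
    have h3 := hlw0 z z' hne
    have h4 : 2 * (R : ℝ) / ((d : ℝ) - 1) = R / ((d : ℝ) - 1) + R / ((d : ℝ) - 1) := by ring
    rw [h4]
    linarith
  · intro hR0' z hz z' hz' hne
    have h1 := hlw0 z z' hne
    rw [hGG0 hR0' z hz z' hz' hne]
    rw [hlogw z z' hne] at h1 ⊢
    refine ⟨(Q.ord v (wd (X z) (X z'))).toNat, ?_⟩
    have h2 : 0 ≤ Q.ord v (wd (X z) (X z')) := by exact_mod_cast h1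
    have h3 := Int.toNat_of_nonneg h2
    have h4 : ((Q.ord v (wd (X z) (X z'))).toNat : ℝ) =
        (((Q.ord v (wd (X z) (X z'))).toNat : ℤ) : ℝ) := by push_cast; rfl
    rw [h4, h3]
  · intro Y hY n hn
    have h1 := hE Y hY n hn
    refine h1.trans (le_of_eq ?_)
    apply Finset.sum_congr rfl
    intro z _
    apply Finset.sum_congr rfl
    intro z' _
    by_cases h : z = z'
    · simp [h]
    · rw [if_neg h, if_neg h, hGG z z' h]
  · intro hR0' z hz z' hz' hne
    have hne' : z ≠ z' := fun h => hne (by rw [h])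
    rw [hGG0 hR0' z hz z' hz' hne', hGG0 hR0' _ (hP z hz).2 _ (hP z' hz').2 hne]
    have h1 := hI l m p₀ q₁ hdl hpe hqe hR0' z hz z' hz'
    have h2 := Real.log_le_log (norm_pos_iff.mpr (hwdne' _ _ hne)) h1
    rw [Real.log_pow] at h2
    linarith

end Pool.Agent.V7H78.RP.I
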