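import Mathlib

/-!
# An averaging argument
-/

set_option autoImplicit false

namespace Pool.Agent.V7H78.RP.I

open Finset

variable {α : Type*} [DecidableEq α]

/-- four different points -/
def D4 (i i' j j' : α) : Prop := i ≠ i' ∧ j ≠ j' ∧ i ≠ j ∧ i ≠ j' ∧ i' ≠ j ∧ i' ≠ j'

instance (i i' j j' : α) : Decidable (D4 i i' j j') := by
  unfold D4
  infer_instance

/-- averaging over quadruples -/
lemma averaging (Y : Finset α) (r : α → α → ℝ) (θ : ℝ) (hθ : 0 ≤ θ)
    (hr0 : ∀ i j, 0 ≤ r i j) (hrθ : ∀ i j, r i j ≤ θ) (hsym : ∀ i j, r i j = r j i)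
    (hrow : ∀ i ∈ Y, ∑ j ∈ Y, r i j ≤ 1) (g : α → α → ℝ) (hg0 : ∀ i ∈ Y, ∀ j ∈ Y, 0 ≤ g i j)
    (h : α → α → α → α → ℝ) (hh : ∀ i i' j j', 0 ≤ h i i' j j') (A : ℝ) (hA : 0 ≤ A)
    (hkey : ∀ i ∈ Y, ∀ i' ∈ Y, ∀ j ∈ Y, ∀ j' ∈ Y, D4 i i' j j' → 0 < r i i' → 0 < r j j' →
      A - h i i' j j' ≤ g i j + g i' j') :
    A * ((∑ i ∈ Y, ∑ j ∈ Y, r i j) ^ 2 - 2 * θ * (Y.card : ℝ) ^ 2 - 4 * Y.card) -
      θ ^ 2 * (∑ i ∈ Y, ∑ i' ∈ Y, ∑ j ∈ Y, ∑ j' ∈ Y, if D4 i i' j j' then h i i' j j' else 0) ≤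
      2 * ∑ i ∈ Y, ∑ j ∈ Y, g i j := by
  classical
  set N : ℝ := (Y.card : ℝ) with hN
  set a : α → ℝ := fun i => ∑ j ∈ Y, r i j with ha
  have ha0 : ∀ i, 0 ≤ a i := fun i => sum_nonneg fun j _ => hr0 i j
  have ha1 : ∀ i ∈ Y, a i ≤ 1 := hrow
  have hcol : ∀ j, ∑ i ∈ Y, r i j = a j := by
    intro j
    simp only [ha]
    exact sum_congr rfl fun i _ => hsym i j
  set S : ℝ := ∑ i ∈ Y, ∑ j ∈ Y, r i j with hS
  have hSa : S = ∑ i ∈ Y, a i := rfl
  have hSN : S ≤ N := by
    rw [hSa]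
    refine (sum_le_sum ha1).trans ?_
    simp [hN]
  have hS0 : 0 ≤ S := sum_nonneg fun i _ => ha0 i
  -- pointwise
  have hpt : ∀ i ∈ Y, ∀ i' ∈ Y, ∀ j ∈ Y, ∀ j' ∈ Y,
      A * (r i i' * r j j') - A * (if i = i' then r i i' * r j j' else 0) -
      A * (if j = j' then r i i' * r j j' else 0) -
      A * (if i = j then r i i' * r j j' else 0) -
      A * (if i = j' then r i i' * r j j' else 0) -
      A * (if i' = j then r i i' * r j j' else 0) -
      A * (if i' = j' then r i i' * r j j' else 0) -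
      θ ^ 2 * (if D4 i i' j j' then h i i' j j' else 0) ≤
      r i i' * r j j' * g i j + r i i' * r j j' * g i' j' := by
    intro i hi i' hi' j hj j' hj'
    have hrr : 0 ≤ r i i' * r j j' := mul_nonneg (hr0 _ _) (hr0 _ _)
    have hArr : 0 ≤ A * (r i i' * r j j') := mul_nonneg hA hrr
    have hR : 0 ≤ r i i' * r j j' * g i j + r i i' * r j j' * g i' j' :=
      add_nonneg (mul_nonneg hrr (hg0 i hi j hj)) (mul_nonneg hrr (hg0 i' hi' j' hj'))
    by_cases hd : D4 i i' j j'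
    · obtain ⟨h1, h2, h3, h4, h5, h6⟩ := hd
      rw [if_neg h1, if_neg h2, if_neg h3, if_neg h4, if_neg h5, if_neg h6,
        if_pos ⟨h1, h2, h3, h4, h5, h6⟩]
      simp only [mul_zero, sub_zero]
      have hh' := hh i i' j j'
      rcases (hr0 i i').eq_or_lt with hz | hz
      · rw [← hz] at hR ⊢
        simp only [zero_mul, mul_zero, zero_sub, add_zero]
        have := mul_nonneg (sq_nonneg θ) hh'
        linarith
      rcases (hr0 j j').eq_or_lt with hz' | hz'
      · rw [← hz'] at hR ⊢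
        simp only [zero_mul, mul_zero, zero_sub, add_zero]
        have := mul_nonneg (sq_nonneg θ) hh'
        linarith
      have hk := hkey i hi i' hi' j hj j' hj' ⟨h1, h2, h3, h4, h5, h6⟩ hz hz'
      have e1 := mul_le_mul_of_nonneg_left hk hrr
      have e2 : r i i' * r j j' ≤ θ ^ 2 := by
        rw [sq]
        exact mul_le_mul (hrθ _ _) (hrθ _ _) (hr0 _ _) hθ
      have e3 := mul_le_mul_of_nonneg_right e2 hh'
      nlinarith
    · rw [if_neg hd, mul_zero, sub_zero]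
      refine le_trans ?_ hR
      have hz : ∀ p : Prop, [Decidable p] → 0 ≤ A * (if p then r i i' * r j j' else 0) := by
        intro p _
        split_ifs
        · exact hArr
        · simp
      have k1 := hz (i = i')
      have k2 := hz (j = j')
      have k3 := hz (i = j)
      have k4 := hz (i = j')
      have k5 := hz (i' = j)
      have k6 := hz (i' = j')
      unfold D4 at hd
      by_cases h1 : i = i'
      · have : A * (if i = i' then r i i' * r j j' else 0) = A * (r i i' * r j j') := by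
          rw [if_pos h1]
        linarith
      by_cases h2 : j = j'
      · have : A * (if j = j' then r i i' * r j j' else 0) = A * (r i i' * r j j') := by
          rw [if_pos h2]
        linarith
      by_cases h3 : i = j
      · have : A * (if i = j then r i i' * r j j' else 0) = A * (r i i' * r j j') := by
          rw [if_pos h3]
        linarith
      by_cases h4 : i = j'
      · have : A * (if i = j' then r i i' * r j j' else 0) = A * (r i i' * r j j') := by
          rw [if_pos h4]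
        linarith
      by_cases h5 : i' = j
      · have : A * (if i' = j then r i i' * r j j' else 0) = A * (r i i' * r j j') := by
          rw [if_pos h5]
        linarith
      by_cases h6 : i' = j'
      · have : A * (if i' = j' then r i i' * r j j' else 0) = A * (r i i' * r j j') := by
          rw [if_pos h6]
        linarith
      exact absurd ⟨h1, h2, h3, h4, h5, h6⟩ hd
  -- sum up
  have hsum := sum_le_sum fun i hi => sum_le_sum fun i' hi' => sum_le_sum fun j hj =>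
    sum_le_sum fun j' hj' => hpt i hi i' hi' j hj j' hj'
  simp only [sum_sub_distrib, sum_add_distrib, ← mul_sum] at hsum
  -- the right hand side
  have hr1 : ∑ i ∈ Y, ∑ i' ∈ Y, r i i' * ∑ j ∈ Y, ∑ j' ∈ Y, r j j' = S ^ 2 := by
    simp only [← sum_mul]
    rw [sq]
  have eR1 : ∑ i ∈ Y, ∑ i' ∈ Y, ∑ j ∈ Y, ∑ j' ∈ Y, r i i' * r j j' * g i j ≤
      ∑ i ∈ Y, ∑ j ∈ Y, g i j := by
    apply sum_le_sum
    intro i hi
    rw [sum_comm]
    apply sum_le_sum
    intro j hj
    have : ∑ i' ∈ Y, ∑ j' ∈ Y, r i i' * r j j' * g i j = a i * a j * g i j := by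
      simp only [← sum_mul, ← mul_sum]
      rfl
    rw [this]
    apply mul_le_of_le_one_left (hg0 i hi j hj)
    exact mul_le_one₀ (ha1 i hi) (ha0 j) (ha1 j hj)
  have eR2 : ∑ i ∈ Y, ∑ i' ∈ Y, ∑ j ∈ Y, ∑ j' ∈ Y, r i i' * r j j' * g i' j' ≤
      ∑ i ∈ Y, ∑ j ∈ Y, g i j := by
    rw [sum_comm]
    apply sum_le_sum
    intro i' hi'
    have h2 : ∑ i ∈ Y, ∑ j ∈ Y, ∑ j' ∈ Y, r i i' * r j j' * g i' j' =
        ∑ j' ∈ Y, a i' * a j' * g i' j' := by
      have h3 : ∀ i ∈ Y, ∑ j ∈ Y, ∑ j' ∈ Y, r i i' * r j j' * g i' j' =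
          r i i' * ∑ j' ∈ Y, a j' * g i' j' := by
        intro i _
        rw [sum_comm, mul_sum]
        apply sum_congr rfl
        intro j' _
        rw [← hcol j', ← sum_mul, ← mul_sum]
        ring
      rw [sum_congr rfl h3, ← sum_mul, hcol, mul_sum]
      apply sum_congr rfl
      intro j' _
      ring
    rw [h2]
    apply sum_le_sum
    intro j' hj'
    apply mul_le_of_le_one_left (hg0 i' hi' j' hj')
    exact mul_le_one₀ (ha1 i' hi') (ha0 j') (ha1 j' hj')
  have haa : ∑ i ∈ Y, a i * a i ≤ N := by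
    have : ∀ i ∈ Y, a i * a i ≤ 1 := fun i hi => mul_le_one₀ (ha1 i hi) (ha0 i) (ha1 i hi)
    refine (sum_le_sum this).trans ?_
    simp [hN]
  have hii : ∑ i ∈ Y, r i i ≤ θ * N := by
    refine (sum_le_sum fun i _ => hrθ i i).trans ?_
    rw [sum_const, nsmul_eq_mul, mul_comm]
  have hii0 : 0 ≤ ∑ i ∈ Y, r i i := sum_nonneg fun i _ => hr0 i i
  have e1 : ∑ i ∈ Y, ∑ i' ∈ Y, ∑ j ∈ Y, ∑ j' ∈ Y, (if i = i' then r i i' * r j j' else 0) ≤
      θ * N ^ 2 := by
    have h2 : ∀ i ∈ Y, ∑ i' ∈ Y, ∑ j ∈ Y, ∑ j' ∈ Y, (if i = i' then r i i' * r j j' else 0) =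
        r i i * S := by
      intro i hi
      rw [sum_eq_single_of_mem i hi]
      · simp only [if_true, ← mul_sum]
        rfl
      · intro b _ hb
        simp [Ne.symm hb]
    rw [sum_congr rfl h2, ← sum_mul]
    calc (∑ i ∈ Y, r i i) * S ≤ (θ * N) * N := mul_le_mul hii hSN hS0
          (mul_nonneg hθ (by simp [hN]))
      _ = θ * N ^ 2 := by ring
  have e2 : ∑ i ∈ Y, ∑ i' ∈ Y, ∑ j ∈ Y, ∑ j' ∈ Y, (if j = j' then r i i' * r j j' else 0) ≤
      θ * N ^ 2 := by
    have h2 : ∀ i i', ∑ j ∈ Y, ∑ j' ∈ Y, (if j = j' then r i i' * r j j' else 0) =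
        r i i' * ∑ j ∈ Y, r j j := by
      intro i i'
      rw [mul_sum]
      apply sum_congr rfl
      intro j hj
      rw [sum_ite_eq, if_pos hj]
    simp only [h2, ← sum_mul]
    calc S * (∑ i ∈ Y, r i i) ≤ N * (θ * N) := mul_le_mul hSN hii hii0 (by simp [hN])
      _ = θ * N ^ 2 := by ring
  have e3 : ∑ i ∈ Y, ∑ i' ∈ Y, ∑ j ∈ Y, ∑ j' ∈ Y, (if i = j then r i i' * r j j' else 0) ≤ N := by
    refine le_trans (le_of_eq ?_) haa
    apply sum_congr rfl
    intro i hi
    have h2 : ∀ i' ∈ Y, ∑ j ∈ Y, ∑ j' ∈ Y, (if i = j then r i i' * r j j' else 0) =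
        r i i' * a i := by
      intro i' _
      rw [sum_eq_single_of_mem i hi]
      · simp only [if_true, ← mul_sum]
        rfl
      · intro b _ hb
        simp [Ne.symm hb]
    rw [sum_congr rfl h2, ← sum_mul]
  have e4 : ∑ i ∈ Y, ∑ i' ∈ Y, ∑ j ∈ Y, ∑ j' ∈ Y, (if i = j' then r i i' * r j j' else 0) ≤
      N := by
    refine le_trans (le_of_eq ?_) haa
    apply sum_congr rfl
    intro i hi
    have h2 : ∀ i' ∈ Y, ∑ j ∈ Y, ∑ j' ∈ Y, (if i = j' then r i i' * r j j' else 0) =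
        r i i' * a i := by
      intro i' _
      rw [← hcol i, mul_sum]
      apply sum_congr rfl
      intro j _
      rw [sum_ite_eq, if_pos hi]
    rw [sum_congr rfl h2, ← sum_mul]
  have e5 : ∑ i ∈ Y, ∑ i' ∈ Y, ∑ j ∈ Y, ∑ j' ∈ Y, (if i' = j then r i i' * r j j' else 0) ≤
      N := by
    refine le_trans (le_of_eq ?_) haa
    rw [sum_comm]
    apply sum_congr rfl
    intro i' hi'
    have h2 : ∀ i ∈ Y, ∑ j ∈ Y, ∑ j' ∈ Y, (if i' = j then r i i' * r j j' else 0) =
        r i i' * a i' := by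
      intro i _
      rw [sum_eq_single_of_mem i' hi']
      · simp only [if_true, ← mul_sum]
        rfl
      · intro b _ hb
        simp [Ne.symm hb]
    rw [sum_congr rfl h2, ← sum_mul, hcol]
  have e6 : ∑ i ∈ Y, ∑ i' ∈ Y, ∑ j ∈ Y, ∑ j' ∈ Y, (if i' = j' then r i i' * r j j' else 0) ≤
      N := by
    refine le_trans (le_of_eq ?_) haa
    rw [sum_comm]
    apply sum_congr rfl
    intro i' hi'
    have h2 : ∀ i ∈ Y, ∑ j ∈ Y, ∑ j' ∈ Y, (if i' = j' then r i i' * r j j' else 0) =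
        r i i' * a i' := by
      intro i _
      rw [← hcol i', mul_sum]
      apply sum_congr rfl
      intro j _
      rw [sum_ite_eq, if_pos hi']
    rw [sum_congr rfl h2, ← sum_mul, hcol]
  have m1 := mul_le_mul_of_nonneg_left e1 hA
  have m2 := mul_le_mul_of_nonneg_left e2 hA
  have m3 := mul_le_mul_of_nonneg_left e3 hA
  have m4 := mul_le_mul_of_nonneg_left e4 hA
  have m5 := mul_le_mul_of_nonneg_left e5 hA
  have m6 := mul_le_mul_of_nonneg_left e6 hA
  rw [hr1] at hsum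
  have e7 : A * (S ^ 2 - 2 * θ * N ^ 2 - 4 * N) = A * S ^ 2 - A * (θ * N ^ 2) -
      A * (θ * N ^ 2) - A * N - A * N - A * N - A * N := by ring
  rw [e7]
  linarith

end Pool.Agent.V7H78.RP.I
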