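import Pool.Agent.V7H78.RP.I.J4

/-!
# Positivity of the energy at a place with small cross ratios
-/

set_option autoImplicit false

namespace Pool.Agent.V7H78.RP.I

open Finset

variable {α : Type*} [DecidableEq α]

/-- the defect of a quadruple -/
def df (g : α → α → ℝ) (i i' j j' : α) : ℝ := |g i j + g i' j' - g i i' - g j j'|

/-- the total defect -/
noncomputable def WW (Y : Finset α) (g : α → α → ℝ) : ℝ :=
  ∑ i ∈ Y, ∑ i' ∈ Y, ∑ j ∈ Y, ∑ j' ∈ Y, if D4 i i' j j' then df g i i' j j' else 0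

/-- the energy -/
noncomputable def E2 (Y : Finset α) (g : α → α → ℝ) : ℝ :=
  ∑ i ∈ Y, ∑ j ∈ Y, if i = j then 0 else g i j

lemma df_nonneg (g : α → α → ℝ) (i i' j j' : α) : 0 ≤ df g i i' j j' := abs_nonneg _

lemma WW_nonneg (Y : Finset α) (g : α → α → ℝ) : 0 ≤ WW Y g := by
  unfold WW
  refine sum_nonneg fun i _ => sum_nonneg fun i' _ => sum_nonneg fun j _ =>
    sum_nonneg fun j' _ => ?_
  split_ifs
  · exact df_nonneg _ _ _ _ _
  · exact le_rfl

/-- **Positivity.** -/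
theorem positivity_lemma (q : ℕ) (hq : 1 ≤ q) (Y : Finset α) (g : α → α → ℝ) (χ : α → Fin q)
    (R c₀ : ℝ) (hR : 0 ≤ R) (hc : 0 < c₀) (hc1 : c₀ ≤ 1)
    (hlow : ∀ i ∈ Y, ∀ j ∈ Y, i ≠ j → -(2 * R) ≤ g i j)
    (hcol : ∀ i ∈ Y, ∀ j ∈ Y, i ≠ j → χ i = χ j → c₀ * R ≤ g i j)
    (hN : 16 * (2 * (32 * q / c₀) + 4) / c₀ ≤ Y.card)
    (hW : 2 / (c₀ * (c₀ / (32 * q)) ^ 2) * WW Y g ≤ R * (Y.card : ℝ) ^ 4) :
    c₀ / 4 * (Y.card : ℝ) ^ 2 * R ≤ E2 Y g := by
  classical
  have hqR : (1 : ℝ) ≤ q := by exact_mod_cast hq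
  set N : ℝ := (Y.card : ℝ) with hNdef
  have hNpos : 0 < N := by
    refine lt_of_lt_of_le ?_ hN
    positivity
  set κ : ℝ := c₀ / (32 * q) with hκ
  have hκpos : 0 < κ := by positivity
  have hκ' : 32 * q / c₀ = κ⁻¹ := by
    rw [hκ, inv_div]
  rw [hκ'] at hN
  set θ : ℝ := (κ * N)⁻¹ with hθ
  have hκN : 0 < κ * N := by positivity
  have hθ0 : 0 ≤ θ := by positivity
  set n : Fin q → ℕ := fun c => (Y.filter fun i => χ i = c).card with hn
  set r : α → α → ℝ := fun i j => if χ i = χ j ∧ κ * N ≤ n (χ i) then ((n (χ i) : ℝ))⁻¹ else 0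
    with hr
  have hr0 : ∀ i j, 0 ≤ r i j := by
    intro i j
    simp only [hr]
    split_ifs
    · positivity
    · exact le_rfl
  have hrθ : ∀ i j, r i j ≤ θ := by
    intro i j
    simp only [hr]
    split_ifs with h
    · exact inv_anti₀ hκN h.2
    · exact hθ0
  have hsym : ∀ i j, r i j = r j i := by
    intro i j
    simp only [hr]
    by_cases h : χ i = χ j
    · rw [h]
    · rw [if_neg (fun h' => h h'.1), if_neg (fun h' => h h'.1.symm)]
  have hrowe : ∀ i ∈ Y, ∑ j ∈ Y, r i j = if κ * N ≤ n (χ i) then 1 else 0 := by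
    intro i hi
    by_cases h : κ * N ≤ n (χ i)
    · rw [if_pos h]
      have h1 : ∀ j ∈ Y, r i j = if χ j = χ i then ((n (χ i) : ℝ))⁻¹ else 0 := by
        intro j _
        simp only [hr]
        by_cases h2 : χ i = χ j
        · rw [if_pos ⟨h2, h⟩, if_pos h2.symm]
        · rw [if_neg (fun h' => h2 h'.1), if_neg (fun h' => h2 h'.symm)]
      rw [sum_congr rfl h1, ← sum_filter, sum_const, nsmul_eq_mul]
      apply mul_inv_cancel₀
      have : 0 < ((n (χ i) : ℕ) : ℝ) := lt_of_lt_of_le hκN h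
      exact this.ne'
    · rw [if_neg h]
      apply sum_eq_zero
      intro j _
      simp only [hr]
      rw [if_neg (fun h' => h h'.2)]
  have hrow : ∀ i ∈ Y, ∑ j ∈ Y, r i j ≤ 1 := by
    intro i hi
    rw [hrowe i hi]
    split_ifs <;> norm_num
  -- the number of points in large classes
  have hS : N * (1 - q * κ) ≤ ∑ i ∈ Y, ∑ j ∈ Y, r i j := by
    rw [sum_congr rfl hrowe, ← sum_filter, sum_const, nsmul_eq_mul, mul_one]
    have h1 : ((Y.filter fun i => ¬ κ * N ≤ n (χ i)).card : ℝ) ≤ q * (κ * N) := by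
      rw [card_eq_sum_card_fiberwise (f := χ) (t := univ) (fun i _ => mem_coe.mpr (mem_univ _))]
      push_cast
      have h2 : ∀ c ∈ (univ : Finset (Fin q)), ((((Y.filter fun i => ¬ κ * N ≤ n (χ i)).filter
          fun i => χ i = c).card : ℕ) : ℝ) ≤ κ * N := by
        intro c _
        by_cases hcn : κ * N ≤ n c
        · rw [Finset.card_eq_zero.mpr]
          · simpa using hκN.le
          · rw [filter_eq_empty_iff]
            intro i hi hic
            rw [mem_filter, hic] at hi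
            exact hi.2 hcn
        · have h3 : (((Y.filter fun i => ¬ κ * N ≤ n (χ i)).filter
              fun i => χ i = c).card : ℝ) ≤ n c := by
            simp only [hn]
            norm_cast
            apply card_le_card
            intro i hi
            rw [mem_filter, mem_filter] at hi
            exact mem_filter.mpr ⟨hi.1.1, hi.2⟩
          exact h3.trans (not_le.mp hcn).le
      refine (sum_le_sum h2).trans ?_
      rw [sum_const, card_univ, Fintype.card_fin, nsmul_eq_mul]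
    have h2 := card_filter_add_card_filter_not (s := Y) (fun i => κ * N ≤ n (χ i))
    have h3 : ((Y.filter fun i => κ * N ≤ n (χ i)).card : ℝ) +
        (Y.filter fun i => ¬ κ * N ≤ n (χ i)).card = N := by
      rw [hNdef]
      exact_mod_cast h2
    linarith
  -- the shifted kernel
  set g' : α → α → ℝ := fun i j => if i = j then 0 else g i j + 2 * R with hg'
  have hg0 : ∀ i ∈ Y, ∀ j ∈ Y, 0 ≤ g' i j := by
    intro i hi j hj
    simp only [hg']
    split_ifs with h
    · exact le_rfl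
    · have := hlow i hi j hj h
      linarith
  have hav := averaging Y r θ hθ0 hr0 hrθ hsym hrow g' hg0 (df g) (df_nonneg g)
    (2 * (c₀ + 2) * R) (by positivity) (by
      intro i hi i' hi' j hj j' hj' hD hz hz'
      have hχ1 : χ i = χ i' := by
        by_contra h
        simp only [hr] at hz
        rw [if_neg (fun h' => h h'.1)] at hz
        exact lt_irrefl _ hz
      have hχ2 : χ j = χ j' := by
        by_contra h
        simp only [hr] at hz'
        rw [if_neg (fun h' => h h'.1)] at hz'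
        exact lt_irrefl _ hz'
      obtain ⟨h1, h2, h3, h4, h5, h6⟩ := hD
      have k1 := hcol i hi i' hi' h1 hχ1
      have k2 := hcol j hj j' hj' h2 hχ2
      have k3 := neg_abs_le (g i j + g i' j' - g i i' - g j j')
      simp only [hg', df]
      rw [if_neg h3, if_neg h6]
      linarith)
  have hWW : (∑ i ∈ Y, ∑ i' ∈ Y, ∑ j ∈ Y, ∑ j' ∈ Y, if D4 i i' j j' then df g i i' j j'
    else 0) = WW Y g := rfl
  rw [hWW] at hav
  -- the energy of the shifted kernel
  have hsumg : ∑ i ∈ Y, ∑ j ∈ Y, g' i j ≤ E2 Y g + 2 * R * N ^ 2 := by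
    have h1 : ∀ i ∈ Y, ∀ j ∈ Y, g' i j ≤ (if i = j then 0 else g i j) + 2 * R := by
      intro i _ j _
      simp only [hg']
      split_ifs
      · linarith
      · exact le_rfl
    refine (sum_le_sum fun i hi => sum_le_sum fun j hj => h1 i hi j hj).trans (le_of_eq ?_)
    simp only [sum_add_distrib, sum_const, nsmul_eq_mul]
    unfold E2
    ring
  -- final computation
  set S : ℝ := ∑ i ∈ Y, ∑ j ∈ Y, r i j with hSdef
  have hqκ : (q : ℝ) * κ = c₀ / 32 := by
    rw [hκ]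
    field_simp
  rw [hqκ] at hS
  have hS2 : N ^ 2 * (1 - c₀ / 16) ≤ S ^ 2 := by
    have h1 : 0 ≤ N * (1 - c₀ / 32) := by
      apply mul_nonneg hNpos.le
      linarith
    have h2 : (N * (1 - c₀ / 32)) ^ 2 ≤ S ^ 2 := pow_le_pow_left₀ h1 hS 2
    nlinarith [sq_nonneg (N * c₀)]
  have hθN : θ * N ^ 2 = κ⁻¹ * N := by
    rw [hθ]
    field_simp
  have hNN : 2 * θ * N ^ 2 + 4 * N ≤ c₀ / 16 * N ^ 2 := by
    have h1 : 2 * θ * N ^ 2 + 4 * N = (2 * κ⁻¹ + 4) * N := by
      have : 2 * θ * N ^ 2 = 2 * (θ * N ^ 2) := by ring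
      rw [this, hθN]
      ring
    rw [h1]
    have h2 : 2 * κ⁻¹ + 4 ≤ c₀ / 16 * N := by
      rw [div_le_iff₀ hc] at hN
      linarith
    calc (2 * κ⁻¹ + 4) * N ≤ (c₀ / 16 * N) * N := mul_le_mul_of_nonneg_right h2 hNpos.le
      _ = c₀ / 16 * N ^ 2 := by ring
  have hWθ : θ ^ 2 * WW Y g ≤ c₀ / 2 * N ^ 2 * R := by
    have h1 : WW Y g ≤ R * N ^ 4 * (c₀ * κ ^ 2 / 2) := by
      have h2 : 0 < 2 / (c₀ * κ ^ 2) := by positivity
      have h3 := mul_le_mul_of_nonneg_right hW (by positivity : 0 ≤ c₀ * κ ^ 2 / 2)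
      have h4 : 2 / (c₀ * κ ^ 2) * WW Y g * (c₀ * κ ^ 2 / 2) = WW Y g := by
        field_simp
      rwa [h4] at h3
    have h2 := mul_le_mul_of_nonneg_left h1 (sq_nonneg θ)
    refine h2.trans (le_of_eq ?_)
    rw [hθ]
    field_simp
  have hA : 0 ≤ 2 * (c₀ + 2) * R := by positivity
  have hm := mul_le_mul_of_nonneg_left (by linarith : N ^ 2 * (1 - c₀ / 8) ≤
    S ^ 2 - 2 * θ * N ^ 2 - 4 * N) hA
  have hfin : 2 * (c₀ + 2) * R * (N ^ 2 * (1 - c₀ / 8)) - c₀ / 2 * N ^ 2 * R ≤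
      2 * (E2 Y g + 2 * R * N ^ 2) := by linarith
  have hRN : 0 ≤ R * N ^ 2 := by positivity
  have e1 : 2 * (c₀ + 2) * R * (N ^ 2 * (1 - c₀ / 8)) - c₀ / 2 * N ^ 2 * R =
      (R * N ^ 2) * (4 + c₀ - c₀ ^ 2 / 4) := by ring
  rw [e1] at hfin
  have e2 : (R * N ^ 2) * (4 + c₀ / 2) ≤ (R * N ^ 2) * (4 + c₀ - c₀ ^ 2 / 4) := by
    apply mul_le_mul_of_nonneg_left _ hRN
    nlinarith
  nlinarith

end Pool.Agent.V7H78.RP.I
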