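import Pool.Agent.V7H78.RP.I.J5

/-!
# Sums over triples
-/

set_option autoImplicit false

namespace Pool.Agent.V7H78.RP.I

open Finset

variable {α : Type*} [DecidableEq α]

/-- three different points -/
def D3 (i j k : α) : Prop := i ≠ j ∧ i ≠ k ∧ j ≠ k

instance (i j k : α) : Decidable (D3 i j k) := by
  unfold D3
  infer_instance

/-- the order of a cross ratio with `z` -/
def dz (g : α → α → ℝ) (z i j k : α) : ℝ := g i j + g z k - g z i - g j k

/-- the sum of the positive parts -/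
noncomputable def MM (Y : Finset α) (g : α → α → ℝ) (z : α) : ℝ :=
  ∑ i ∈ Y, ∑ j ∈ Y, ∑ k ∈ Y, if D3 i j k then max 0 (dz g z i j k) else 0

/-- a special triple -/
def Spc (g : α → α → ℝ) (z i j k : α) : Prop :=
  g i j + g z k ≠ g z i + g j k ∨ g z j + g i k ≠ g z k + g i j

open Classical in
/-- the number of special triples -/
noncomputable def CC (Y : Finset α) (g : α → α → ℝ) (z : α) : ℝ :=
  ∑ i ∈ Y, ∑ j ∈ Y, ∑ k ∈ Y, if D3 i j k then (if Spc g z i j k then 1 else 0) else 0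

lemma WW_le (Y : Finset α) (g : α → α → ℝ) (hg : ∀ i j, g i j = g j i) (z : α) :
    WW Y g ≤ 4 * Y.card * MM Y g z := by
  have hd : ∀ i j k, |dz g z i j k| = max 0 (dz g z i j k) + max 0 (dz g z k j i) := by
    intro i j k
    have h1 : dz g z k j i = -dz g z i j k := by
      unfold dz
      rw [hg k j, hg j i]
      ring
    rw [h1]
    rcases le_total 0 (dz g z i j k) with h | h
    · rw [abs_of_nonneg h, max_eq_right h, max_eq_left (by linarith), add_zero]
    · rw [abs_of_nonpos h, max_eq_left h, max_eq_right (by linarith), zero_add]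
  set T : ℝ := ∑ i ∈ Y, ∑ j ∈ Y, ∑ k ∈ Y, if D3 i j k then |dz g z i j k| else 0 with hT
  have hTM : T = 2 * MM Y g z := by
    have h1 : T = ∑ i ∈ Y, ∑ j ∈ Y, ∑ k ∈ Y, ((if D3 i j k then max 0 (dz g z i j k) else 0) +
        (if D3 k j i then max 0 (dz g z k j i) else 0)) := by
      rw [hT]
      apply sum_congr rfl
      intro i _
      apply sum_congr rfl
      intro j _
      apply sum_congr rfl
      intro k _
      by_cases h : D3 i j k
      · have h' : D3 k j i := ⟨h.2.2.symm, h.2.1.symm, h.1.symm⟩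
        rw [if_pos h, if_pos h, if_pos h', hd]
      · have h' : ¬ D3 k j i := fun h'' => h ⟨h''.2.2.symm, h''.2.1.symm, h''.1.symm⟩
        rw [if_neg h, if_neg h, if_neg h', add_zero]
    rw [h1]
    simp only [sum_add_distrib]
    have h2 : ∑ i ∈ Y, ∑ j ∈ Y, ∑ k ∈ Y, (if D3 k j i then max 0 (dz g z k j i) else 0) =
        MM Y g z := by
      unfold MM
      rw [sum_comm]
      rw [sum_comm (s := Y) (t := Y) (f := fun i j => ∑ k ∈ Y,
        if D3 i j k then max 0 (dz g z i j k) else 0)]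
      apply sum_congr rfl
      intro j _
      rw [sum_comm]
    rw [h2]
    unfold MM
    ring
  have hpt : ∀ i ∈ Y, ∀ i' ∈ Y, ∀ j ∈ Y, ∀ j' ∈ Y, (if D4 i i' j j' then df g i i' j j' else 0) ≤
      (if D3 j i i' then |dz g z j i i'| else 0) +
        (if D3 i' j' j then |dz g z i' j' j| else 0) := by
    intro i _ i' _ j _ j' _
    have h0 : 0 ≤ (if D3 j i i' then |dz g z j i i'| else 0) +
        (if D3 i' j' j then |dz g z i' j' j| else 0) := by
      apply add_nonneg <;> split_ifs <;> first | exact abs_nonneg _ | exact le_rfl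
    by_cases h : D4 i i' j j'
    · obtain ⟨h1, h2, h3, h4, h5, h6⟩ := h
      rw [if_pos ⟨h1, h2, h3, h4, h5, h6⟩, if_pos ⟨h3.symm, h5.symm, h1⟩,
        if_pos ⟨h6, h5, h2.symm⟩]
      refine le_trans (le_of_eq ?_) (abs_add_le _ _)
      unfold df dz
      congr 1
      rw [hg j i, hg j' j]
      ring
    · rw [if_neg h]
      exact h0
  have hsum := sum_le_sum fun i hi => sum_le_sum fun i' hi' => sum_le_sum fun j hj =>
    sum_le_sum fun j' hj' => hpt i hi i' hi' j hj j' hj'
  have hs1 : ∑ i ∈ Y, ∑ i' ∈ Y, ∑ j ∈ Y, ∑ j' ∈ Y, (if D3 j i i' then |dz g z j i i'| else 0) =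
      Y.card * T := by
    have e1 : ∀ i ∈ Y, ∑ i' ∈ Y, ∑ j ∈ Y, ∑ j' ∈ Y, (if D3 j i i' then |dz g z j i i'| else 0) =
        Y.card * ∑ j ∈ Y, ∑ i' ∈ Y, (if D3 j i i' then |dz g z j i i'| else 0) := by
      intro i _
      rw [sum_comm, mul_sum]
      apply sum_congr rfl
      intro j _
      rw [mul_sum]
      apply sum_congr rfl
      intro i' _
      rw [sum_const, nsmul_eq_mul]
    rw [sum_congr rfl e1, ← mul_sum, hT, sum_comm]
  have hs2 : ∑ i ∈ Y, ∑ i' ∈ Y, ∑ j ∈ Y, ∑ j' ∈ Y, (if D3 i' j' j then |dz g z i' j' j| else 0) =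
      Y.card * T := by
    rw [sum_const, nsmul_eq_mul, hT]
    congr 1
    apply sum_congr rfl
    intro i' _
    rw [sum_comm]
  simp only [sum_add_distrib] at hsum
  rw [hs1, hs2, hTM] at hsum
  have : WW Y g ≤ Y.card * (2 * MM Y g z) + Y.card * (2 * MM Y g z) := hsum
  linarith

lemma CC_nonneg (Y : Finset α) (g : α → α → ℝ) (z : α) : 0 ≤ CC Y g z := by
  classical
  unfold CC
  refine sum_nonneg fun i _ => sum_nonneg fun j _ => sum_nonneg fun k _ => ?_
  split_ifs <;> norm_num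

lemma CC_le (Y : Finset α) (g : α → α → ℝ) (z : α) : CC Y g z ≤ (Y.card : ℝ) ^ 3 := by
  classical
  unfold CC
  have h1 : ∀ i ∈ Y, ∀ j ∈ Y, ∀ k ∈ Y,
      (if D3 i j k then (if Spc g z i j k then (1 : ℝ) else 0) else 0) ≤ 1 := by
    intro i _ j _ k _
    split_ifs <;> norm_num
  refine (sum_le_sum fun i hi => sum_le_sum fun j hj => sum_le_sum fun k hk =>
    h1 i hi j hj k hk).trans (le_of_eq ?_)
  simp only [sum_const, nsmul_eq_mul, mul_one]
  ring

lemma CC_le_good (Y : Finset α) (g : α → α → ℝ) (hg : ∀ i j, g i j = g j i) (z : α)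
    (hz : ∀ i ∈ Y, ∃ m : ℕ, g z i = m) (hY : ∀ i ∈ Y, ∀ j ∈ Y, i ≠ j → ∃ m : ℕ, g i j = m) :
    CC Y g z ≤ 3 * (Y.card : ℝ) ^ 2 * (∑ i ∈ Y, g z i) + 3 * Y.card * E2 Y g := by
  classical
  have hz0 : ∀ i ∈ Y, 0 ≤ g z i := by
    intro i hi
    obtain ⟨m, hm⟩ := hz i hi
    rw [hm]
    exact Nat.cast_nonneg m
  have hY0 : ∀ i ∈ Y, ∀ j ∈ Y, 0 ≤ (if i = j then 0 else g i j) := by
    intro i hi j hj
    split_ifs with h
    · exact le_rfl
    · obtain ⟨m, hm⟩ := hY i hi j hj h
      rw [hm]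
      exact Nat.cast_nonneg m
  have hnat : ∀ x : ℝ, (∃ m : ℕ, x = m) → x = 0 ∨ 1 ≤ x := by
    rintro x ⟨m, rfl⟩
    rcases Nat.eq_zero_or_pos m with h | h
    · left
      rw [h, Nat.cast_zero]
    · right
      exact_mod_cast h
  have hpt : ∀ i ∈ Y, ∀ j ∈ Y, ∀ k ∈ Y,
      (if D3 i j k then (if Spc g z i j k then (1 : ℝ) else 0) else 0) ≤
        g z i + g z j + g z k + (if i = j then 0 else g i j) + (if i = k then 0 else g i k) +
          (if j = k then 0 else g j k) := by
    intro i hi j hj k hk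
    have a1 := hz0 i hi
    have a2 := hz0 j hj
    have a3 := hz0 k hk
    have b1 := hY0 i hi j hj
    have b2 := hY0 i hi k hk
    have b3 := hY0 j hj k hk
    by_cases h : D3 i j k
    · rw [if_pos h]
      obtain ⟨h1, h2, h3⟩ := h
      rw [if_neg h1] at b1 ⊢
      rw [if_neg h2] at b2 ⊢
      rw [if_neg h3] at b3 ⊢
      split_ifs with hs
      · by_contra hcon
        push Not at hcon
        have c1 := (hnat _ (hz i hi)).resolve_right (by linarith)
        have c2 := (hnat _ (hz j hj)).resolve_right (by linarith)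
        have c3 := (hnat _ (hz k hk)).resolve_right (by linarith)
        have c4 := (hnat _ (hY i hi j hj h1)).resolve_right (by linarith)
        have c5 := (hnat _ (hY i hi k hk h2)).resolve_right (by linarith)
        have c6 := (hnat _ (hY j hj k hk h3)).resolve_right (by linarith)
        unfold Spc at hs
        rw [c1, c2, c3, c4, c5, c6] at hs
        rcases hs with hs | hs <;> exact hs rfl
      · linarith
    · rw [if_neg h]
      linarith
  refine (sum_le_sum fun i hi => sum_le_sum fun j hj => sum_le_sum fun k hk =>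
    hpt i hi j hj k hk).trans (le_of_eq ?_)
  simp only [sum_add_distrib, sum_const, nsmul_eq_mul]
  unfold E2
  have e1 : ∑ x ∈ Y, (Y.card : ℝ) * ((Y.card : ℝ) * g z x) =
      (Y.card : ℝ) ^ 2 * ∑ i ∈ Y, g z i := by
    rw [mul_sum]
    apply sum_congr rfl
    intro x _
    ring
  have e2 : ∑ x ∈ Y, (Y.card : ℝ) * g z x = (Y.card : ℝ) * ∑ i ∈ Y, g z i := by
    rw [mul_sum]
  have e3 : ∑ x ∈ Y, ∑ y ∈ Y, (Y.card : ℝ) * (if x = y then 0 else g x y) =
      (Y.card : ℝ) * ∑ x ∈ Y, ∑ y ∈ Y, (if x = y then 0 else g x y) := by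
    rw [mul_sum]
    apply sum_congr rfl
    intro x _
    rw [mul_sum]
  rw [e1, e2, e3, ← mul_sum]
  ring

end Pool.Agent.V7H78.RP.I
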