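import Pool.Agent.V7H78.RP.I.J6

/-!
# The main inequality
-/

set_option autoImplicit false

namespace Pool.Agent.V7H78.RP.I

open Finset

/-- the constant -/
noncomputable def Kc (q : ℕ) (c₀ : ℝ) : ℝ := 2 / (c₀ * (c₀ / (32 * q)) ^ 2)

open Classical in
/-- **The main inequality.** -/
theorem main_abs {ι α : Type*} (q : ℕ) (hq : 1 ≤ q) (c₀ : ℝ) (hc : 0 < c₀)
    (hc1 : c₀ ≤ 1) (S : Finset ι) (w : ι → ℝ) (hw : ∀ v, 0 ≤ w v) (g : ι → α → α → ℝ)
    (hg : ∀ v i j, g v i j = g v j i) (R : ι → ℕ) (Y : Finset α) (z : α)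
    (hprod : ∀ i ∈ Y, ∀ j ∈ Y, i ≠ j → ∑ v ∈ S, w v * g v i j = 0)
    (hlow : ∀ v ∈ S, ∀ i ∈ Y, ∀ j ∈ Y, i ≠ j → -(2 * (R v : ℝ)) ≤ g v i j)
    (hcol : ∀ v ∈ S, 1 ≤ R v → ∃ χ : α → Fin q, ∀ i ∈ Y, ∀ j ∈ Y, i ≠ j → χ i = χ j →
      c₀ * R v ≤ g v i j)
    (D : ℝ) (hen : ∀ v ∈ S, -(4 * (Y.card : ℝ) ^ 2 * R v / D) ≤ E2 Y (g v))
    (hnat : ∀ v ∈ S, R v = 0 → (∀ i ∈ Y, ∃ m : ℕ, g v z i = m) ∧
      ∀ i ∈ Y, ∀ j ∈ Y, i ≠ j → ∃ m : ℕ, g v i j = m)
    (T : ℝ) (hT : ∀ v ∈ S, WW Y (g v) = 0 ∨ T ≤ WW Y (g v))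
    (lossT : ℝ) (hl : 0 ≤ lossT)
    (hM : ∀ i ∈ Y, ∀ j ∈ Y, ∀ k ∈ Y, D3 i j k → ∑ v ∈ S, w v * max 0 (dz (g v) z i j k) ≤
      lossT + ∑ v ∈ S, w v * (if Spc (g v) z i j k then 1 else 0))
    (hG1 : ∀ i ∈ Y, ∑ v ∈ S, (if R v = 0 then w v * g v z i else 0) ≤
      2 * (∑ v ∈ S, w v * R v) / Y.card)
    (hG2 : ∑ v ∈ S, (if R v = 0 then w v * E2 Y (g v) else 0) ≤
      12 * Y.card * ∑ v ∈ S, w v * R v)
    (hN : 16 * (2 * (32 * q / c₀) + 4) / c₀ ≤ Y.card) (hN2 : 84 * 32 * Kc q c₀ ≤ Y.card)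
    (hD2 : 512 * Kc q c₀ / c₀ ≤ D) (hT2 : 32 * (Y.card : ℝ) ^ 4 ≤ T) :
    ∑ v ∈ S, w v * R v ≤ 16 * Kc q c₀ * lossT := by
  have hqR : (1 : ℝ) ≤ q := by exact_mod_cast hq
  set N : ℝ := (Y.card : ℝ) with hNdef
  have hNpos : 0 < N := by
    refine lt_of_lt_of_le ?_ hN
    positivity
  set K : ℝ := Kc q c₀ with hK
  have hKpos : 0 < K := by
    rw [hK]
    unfold Kc
    positivity
  have hK1 : 1 ≤ K := by
    rw [hK]
    unfold Kc
    rw [le_div_iff₀ (by positivity), one_mul]
    have h1 : c₀ / (32 * q) ≤ 1 := by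
      rw [div_le_one (by positivity)]
      linarith
    have h2 : 0 ≤ c₀ / (32 * q) := by positivity
    have h3 : (c₀ / (32 * q)) ^ 2 ≤ 1 := pow_le_one₀ h2 h1
    nlinarith
  have hDpos : 0 < D := by
    refine lt_of_lt_of_le ?_ hD2
    positivity
  have hTpos : 0 < T := by
    refine lt_of_lt_of_le ?_ hT2
    positivity
  set RR : ℝ := ∑ v ∈ S, w v * R v with hRR
  have hRR0 : 0 ≤ RR := sum_nonneg fun v _ => mul_nonneg (hw v) (Nat.cast_nonneg _)
  -- the places with trivial cross ratios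
  set A : ι → Prop := fun v => 1 ≤ R v ∧ K * WW Y (g v) ≤ R v * N ^ 4 with hA
  set RA : ℝ := ∑ v ∈ S, (if A v then w v * R v else 0) with hRA
  set X : ℝ := ∑ v ∈ S, w v * WW Y (g v) with hX
  have hX0 : 0 ≤ X := sum_nonneg fun v _ => mul_nonneg (hw v) (WW_nonneg _ _)
  -- energy balance
  have hE0 : ∑ v ∈ S, w v * E2 Y (g v) = 0 := by
    unfold E2
    simp only [mul_sum]
    rw [sum_comm]
    apply sum_eq_zero
    intro i hi
    rw [sum_comm]
    apply sum_eq_zero
    intro j hj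
    by_cases h : i = j
    · simp [h]
    · simp only [if_neg h]
      exact hprod i hi j hj h
  have hbal : ∀ v ∈ S, c₀ / 4 * N ^ 2 * (if A v then w v * R v else 0) -
      4 * N ^ 2 / D * (K * (w v * WW Y (g v)) / N ^ 4) ≤ w v * E2 Y (g v) := by
    intro v hv
    have hwv := hw v
    have hWv := WW_nonneg Y (g v)
    by_cases h : A v
    · rw [if_pos h]
      obtain ⟨χ, hχ⟩ := hcol v hv h.1
      have h1 := positivity_lemma q hq Y (g v) χ (R v) c₀ (Nat.cast_nonneg _) hc hc1 (hlow v hv)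
        hχ hN h.2
      have h2 := mul_le_mul_of_nonneg_left h1 hwv
      have h3 : 0 ≤ 4 * N ^ 2 / D * (K * (w v * WW Y (g v)) / N ^ 4) := by positivity
      have h4 : c₀ / 4 * N ^ 2 * (w v * R v) = w v * (c₀ / 4 * N ^ 2 * R v) := by ring
      rw [h4]
      linarith
    · rw [if_neg h, mul_zero, zero_sub]
      have h1 := mul_le_mul_of_nonneg_left (hen v hv) hwv
      refine le_trans ?_ h1
      have h2 : (R v : ℝ) ≤ K * WW Y (g v) / N ^ 4 := by
        rw [le_div_iff₀ (by positivity)]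
        by_contra hcon
        push Not at hcon
        apply h
        refine ⟨?_, hcon.le⟩
        by_contra h3
        have h4 : R v = 0 := by omega
        rw [h4] at hcon
        simp only [Nat.cast_zero, zero_mul] at hcon
        have : 0 ≤ K * WW Y (g v) := by positivity
        linarith
      have h3 : w v * (4 * N ^ 2 * R v / D) ≤ 4 * N ^ 2 / D * (K * (w v * WW Y (g v)) / N ^ 4) := by
        have h4 : w v * (4 * N ^ 2 * R v / D) = (4 * N ^ 2 / D * w v) * R v := by ring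
        have h5 : 4 * N ^ 2 / D * (K * (w v * WW Y (g v)) / N ^ 4) =
          (4 * N ^ 2 / D * w v) * (K * WW Y (g v) / N ^ 4) := by ring
        rw [h4, h5]
        exact mul_le_mul_of_nonneg_left h2 (by positivity)
      linarith
  have hbs := sum_le_sum hbal
  rw [sum_sub_distrib, ← mul_sum, ← mul_sum, hE0] at hbs
  have e1 : ∑ v ∈ S, K * (w v * WW Y (g v)) / N ^ 4 = K * X / N ^ 4 := by
    rw [hX, mul_sum, sum_div]
  rw [e1, ← hRA] at hbs
  set E : ℝ := X / N ^ 4 with hE
  have hE0' : 0 ≤ E := by positivity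
  have e2 : K * X / N ^ 4 = K * E := by rw [hE]; ring
  rw [e2] at hbs
  have hRAE : RA ≤ E / 32 := by
    have h1 : c₀ / 4 * N ^ 2 * RA ≤ 4 * N ^ 2 / D * (K * E) := by linarith
    have h2 : c₀ * RA ≤ 16 / D * (K * E) := by
      have h3 : 0 < N ^ 2 / 4 := by positivity
      have h4 : N ^ 2 / 4 * (c₀ * RA) ≤ N ^ 2 / 4 * (16 / D * (K * E)) := by
        calc N ^ 2 / 4 * (c₀ * RA) = c₀ / 4 * N ^ 2 * RA := by ring
          _ ≤ 4 * N ^ 2 / D * (K * E) := h1
          _ = N ^ 2 / 4 * (16 / D * (K * E)) := by ring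
      exact le_of_mul_le_mul_left h4 h3
    have h5 : 16 / D * K ≤ c₀ / 32 := by
      rw [div_mul_eq_mul_div, div_le_iff₀ hDpos]
      rw [div_le_iff₀ hc] at hD2
      linarith
    have h6 : 16 / D * (K * E) ≤ c₀ * (E / 32) := by
      calc 16 / D * (K * E) = (16 / D * K) * E := by ring
        _ ≤ (c₀ / 32) * E := mul_le_mul_of_nonneg_right h5 hE0'
        _ = c₀ * (E / 32) := by ring
    exact le_of_mul_le_mul_left (h2.trans h6) hc
  have hRRE : RR ≤ 2 * K * E := by
    have h1 : RR ≤ RA + K * E := by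
      rw [hRR, hRA, ← e2, hX, mul_sum, sum_div, ← sum_add_distrib]
      apply sum_le_sum
      intro v hv
      have hwv := hw v
      have hWv := WW_nonneg Y (g v)
      by_cases h : A v
      · rw [if_pos h]
        have : 0 ≤ K * (w v * WW Y (g v)) / N ^ 4 := by positivity
        linarith
      · rw [if_neg h, zero_add]
        have h2 : (R v : ℝ) ≤ K * WW Y (g v) / N ^ 4 := by
          rw [le_div_iff₀ (by positivity)]
          by_contra hcon
          push Not at hcon
          apply h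
          refine ⟨?_, hcon.le⟩
          by_contra h3
          have h4 : R v = 0 := by omega
          rw [h4] at hcon
          simp only [Nat.cast_zero, zero_mul] at hcon
          have : 0 ≤ K * WW Y (g v) := by positivity
          linarith
        have h3 := mul_le_mul_of_nonneg_left h2 hwv
        refine h3.trans (le_of_eq ?_)
        ring
    have h2 : E / 32 ≤ K * E := by nlinarith
    nlinarith
  -- special triples
  have hCC : ∀ v ∈ S, w v * CC Y (g v) z ≤ N ^ 3 * (w v * WW Y (g v)) / T +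
      (3 * N ^ 2 * (∑ i ∈ Y, if R v = 0 then w v * g v z i else 0) +
        3 * N * (if R v = 0 then w v * E2 Y (g v) else 0)) +
      N ^ 3 * (if A v then w v * R v else 0) := by
    intro v hv
    have hwv := hw v
    have hWv := WW_nonneg Y (g v)
    have hCle := CC_le Y (g v) z
    have t1 : 0 ≤ N ^ 3 * (w v * WW Y (g v)) / T := by positivity
    have t3 : 0 ≤ N ^ 3 * (if A v then w v * R v else 0) := by
      split_ifs
      · positivity
      · simp
    have t2 : 0 ≤ (3 * N ^ 2 * (∑ i ∈ Y, if R v = 0 then w v * g v z i else 0) +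
        3 * N * (if R v = 0 then w v * E2 Y (g v) else 0)) := by
      by_cases hR0 : R v = 0
      · obtain ⟨hn1, hn2⟩ := hnat v hv hR0
        have k1 : 0 ≤ ∑ i ∈ Y, if R v = 0 then w v * g v z i else 0 := by
          apply sum_nonneg
          intro i hi
          rw [if_pos hR0]
          obtain ⟨m, hm⟩ := hn1 i hi
          rw [hm]
          positivity
        have k2 : 0 ≤ (if R v = 0 then w v * E2 Y (g v) else 0) := by
          rw [if_pos hR0]
          apply mul_nonneg hwv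
          unfold E2
          apply sum_nonneg
          intro i hi
          apply sum_nonneg
          intro j hj
          split_ifs with h
          · exact le_rfl
          · obtain ⟨m, hm⟩ := hn2 i hi j hj h
            rw [hm]
            exact Nat.cast_nonneg m
        positivity
      · simp [hR0]
    rcases hT v hv with hW0 | hW1
    · by_cases hR0 : R v = 0
      · obtain ⟨hn1, hn2⟩ := hnat v hv hR0
        have h1 := CC_le_good Y (g v) (hg v) z hn1 hn2
        have h2 := mul_le_mul_of_nonneg_left h1 hwv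
        have h3 : w v * (3 * N ^ 2 * (∑ i ∈ Y, g v z i) + 3 * N * E2 Y (g v)) =
            (3 * N ^ 2 * (∑ i ∈ Y, if R v = 0 then w v * g v z i else 0) +
              3 * N * (if R v = 0 then w v * E2 Y (g v) else 0)) := by
          simp only [if_pos hR0]
          rw [← mul_sum]
          ring
        rw [h3] at h2
        linarith
      · have hAv : A v := by
          refine ⟨by omega, ?_⟩
          rw [hW0, mul_zero]
          positivity
        rw [if_pos hAv] at t3 ⊢
        have h1 : (1 : ℝ) ≤ R v := by exact_mod_cast Nat.one_le_iff_ne_zero.mpr hR0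
        have h2 := mul_le_mul_of_nonneg_left hCle hwv
        have h3 : w v * N ^ 3 ≤ N ^ 3 * (w v * R v) := by
          have : w v * N ^ 3 * 1 ≤ w v * N ^ 3 * R v :=
            mul_le_mul_of_nonneg_left h1 (by positivity)
          linarith
        linarith
    · have h2 := mul_le_mul_of_nonneg_left hCle hwv
      have h3 : w v * N ^ 3 ≤ N ^ 3 * (w v * WW Y (g v)) / T := by
        rw [le_div_iff₀ hTpos]
        have : w v * N ^ 3 * T ≤ w v * N ^ 3 * WW Y (g v) :=
          mul_le_mul_of_nonneg_left hW1 (by positivity)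
        linarith
      linarith
  have hCs := sum_le_sum hCC
  rw [sum_add_distrib, sum_add_distrib, sum_add_distrib, ← mul_sum, ← mul_sum, ← mul_sum] at hCs
  have e3 : ∑ v ∈ S, N ^ 3 * (w v * WW Y (g v)) / T = N ^ 3 * X / T := by
    rw [hX, mul_sum, sum_div]
  have e4 : ∑ v ∈ S, ∑ i ∈ Y, (if R v = 0 then w v * g v z i else 0) ≤ 2 * RR := by
    rw [sum_comm]
    refine (sum_le_sum hG1).trans (le_of_eq ?_)
    rw [sum_const, nsmul_eq_mul, ← hNdef]
    field_simp
  rw [e3, ← hRA] at hCs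
  -- Mason's inequality, summed
  have hMs : ∑ v ∈ S, w v * MM Y (g v) z ≤ N ^ 3 * lossT + ∑ v ∈ S, w v * CC Y (g v) z := by
    have h1 : ∀ i ∈ Y, ∀ j ∈ Y, ∀ k ∈ Y,
        ∑ v ∈ S, w v * (if D3 i j k then max 0 (dz (g v) z i j k) else 0) ≤
        lossT + ∑ v ∈ S, w v * (if D3 i j k then (if Spc (g v) z i j k then 1 else 0) else 0) := by
      intro i hi j hj k hk
      by_cases h : D3 i j k
      · simp only [if_pos h]
        exact hM i hi j hj k hk h
      · simp only [if_neg h, mul_zero, sum_const_zero, add_zero]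
        exact hl
    have h2 := sum_le_sum fun i hi => sum_le_sum fun j hj => sum_le_sum fun k hk =>
      h1 i hi j hj k hk
    have hcomm : ∀ F : ι → α → α → α → ℝ, ∑ i ∈ Y, ∑ j ∈ Y, ∑ k ∈ Y, ∑ v ∈ S, w v * F v i j k =
        ∑ v ∈ S, w v * ∑ i ∈ Y, ∑ j ∈ Y, ∑ k ∈ Y, F v i j k := by
      intro F
      simp only [mul_sum]
      have c1 : ∀ i ∈ Y, ∑ j ∈ Y, ∑ k ∈ Y, ∑ v ∈ S, w v * F v i j k =
          ∑ v ∈ S, ∑ j ∈ Y, ∑ k ∈ Y, w v * F v i j k := by
        intro i _
        have c2 : ∀ j ∈ Y, ∑ k ∈ Y, ∑ v ∈ S, w v * F v i j k =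
            ∑ v ∈ S, ∑ k ∈ Y, w v * F v i j k := fun j _ => sum_comm
        rw [sum_congr rfl c2, sum_comm]
      rw [sum_congr rfl c1, sum_comm]
    rw [hcomm (fun v i j k => if D3 i j k then max 0 (dz (g v) z i j k) else 0)] at h2
    simp only [sum_add_distrib] at h2
    rw [hcomm (fun v i j k => if D3 i j k then (if Spc (g v) z i j k then 1 else 0) else 0)] at h2
    have h3 : ∑ i ∈ Y, ∑ j ∈ Y, ∑ k ∈ Y, lossT = N ^ 3 * lossT := by
      simp only [sum_const, nsmul_eq_mul]
      ring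
    rw [h3] at h2
    exact h2
  have hWM : X ≤ 4 * N * ∑ v ∈ S, w v * MM Y (g v) z := by
    rw [hX, mul_sum]
    apply sum_le_sum
    intro v _
    have h1 := mul_le_mul_of_nonneg_left (WW_le Y (g v) (hg v) z) (hw v)
    linarith
  -- the end
  have hfin : X ≤ 4 * N * (N ^ 3 * lossT + (N ^ 3 * X / T + (3 * N ^ 2 * (2 * RR) +
      3 * N * (12 * N * RR)) + N ^ 3 * RA)) := by
    refine hWM.trans (mul_le_mul_of_nonneg_left (hMs.trans ?_) (by positivity))
    have k1 : 3 * N ^ 2 * (∑ v ∈ S, ∑ i ∈ Y, (if R v = 0 then w v * g v z i else 0)) ≤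
        3 * N ^ 2 * (2 * RR) := mul_le_mul_of_nonneg_left e4 (by positivity)
    have k2 : 3 * N * (∑ v ∈ S, (if R v = 0 then w v * E2 Y (g v) else 0)) ≤
        3 * N * (12 * N * RR) := mul_le_mul_of_nonneg_left hG2 (by positivity)
    linarith
  clear hM hCC hbal hen hprod hlow hcol hnat hG1 hG2 hT hMs hWM hCs
  have hXE : X = N ^ 4 * E := by
    rw [hE]
    field_simp
  have hN4 : 0 < 4 * N ^ 4 := mul_pos (by norm_num) (pow_pos hNpos 4)
  have hfin2 : E / 4 ≤ lossT + N ^ 4 * E / T + 42 * RR / N + RA := by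
    have h1 : 4 * N ^ 4 * (E / 4) ≤ 4 * N ^ 4 * (lossT + N ^ 4 * E / T + 42 * RR / N + RA) := by
      calc 4 * N ^ 4 * (E / 4) = X := by rw [hXE]; ring
        _ ≤ _ := hfin
        _ = 4 * N ^ 4 * (lossT + N ^ 4 * E / T + 42 * RR / N + RA) := by
          rw [hXE]
          field_simp
          ring
    exact le_of_mul_le_mul_left h1 hN4
  have b1 : N ^ 4 * E / T ≤ E / 32 := by
    rw [div_le_div_iff₀ hTpos (by norm_num)]
    have := mul_le_mul_of_nonneg_right hT2 hE0'
    linarith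
  have b2 : 42 * RR / N ≤ E / 32 := by
    rw [div_le_div_iff₀ hNpos (by norm_num)]
    have h1 := mul_le_mul_of_nonneg_right hN2 hE0'
    nlinarith
  have hEl : E ≤ 8 * lossT := by linarith
  calc RR ≤ 2 * K * E := hRRE
    _ ≤ 2 * K * (8 * lossT) := mul_le_mul_of_nonneg_left hEl (by positivity)
    _ = 16 * K * lossT := by ring

end Pool.Agent.V7H78.RP.I
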