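import Pool.Agent.V7H78.RP.I.J7
import Pool.Agent.V7H78.RP.I.J3

/-!
# Mason's inequality
-/

set_option autoImplicit false

namespace Pool.Agent.V7H78.RP.I

open Pool.Agent.V7H78.RP.UH Pool.Agent.V7H78.RP.UB Pool.Agent.V7H78.RP.UG Finset Polynomial

universe u

variable {k : Type*} {K : Type u} [Field k] [Field K] [Algebra k K]

open Classical in
/-- Mason's inequality for one function. -/
theorem mason (Q : PlaceData k K) (x : K) (hD : Q.D x ≠ 0) (S : Finset Q.Pl)
    (hS : Q.lossS ⊆ S) (hx : ∀ v, v ∉ S → Q.ord v x = 0) (hx' : ∀ v, v ∉ S → Q.ord v (1 - x) = 0) :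
    ∑ v ∈ S, Q.wt v * max 0 (-Q.ord v x) ≤
      Q.lossT + ∑ v ∈ S, Q.wt v * (if Q.ord v x ≠ 0 ∨ Q.ord v (1 - x) ≠ 0 then 1 else 0) := by
  have hx0 : x ≠ 0 := by
    rintro rfl
    exact hD (map_zero _)
  have hx1 : 1 - x ≠ 0 := by
    intro h
    apply hD
    have h1 : x = 1 := (sub_eq_zero.mp h).symm
    rw [h1, Derivation.map_one_eq_zero]
  have hDx' : Q.D (1 - x) = -Q.D x := by
    rw [map_sub, Derivation.map_one_eq_zero, zero_sub]
  have h1x : ∀ v : Q.Pl, ∀ m : ℤ, m ≤ 0 → m ≤ Q.ord v x → m ≤ Q.ord v (1 - x) := by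
    intro v m hm h
    have h1 : Q.G v m (1 - x) := PlaceData.G_sub (PlaceData.G_mono PlaceData.G_one hm)
      (fun _ => h)
    exact h1 hx1
  have h1x' : ∀ v : Q.Pl, ∀ m : ℤ, m ≤ 0 → m ≤ Q.ord v (1 - x) → m ≤ Q.ord v x := by
    intro v m hm h
    have h1 : Q.G v m (1 - (1 - x)) := PlaceData.G_sub (PlaceData.G_mono PlaceData.G_one hm)
      (fun _ => h)
    have h2 : 1 - (1 - x) = x := by ring
    rw [h2] at h1
    exact h1 hx0
  have h1x'' : ∀ v : Q.Pl, 1 ≤ Q.ord v x → Q.ord v (1 - x) ≤ 0 := by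
    intro v h
    by_contra hcon
    push Not at hcon
    have h1 : Q.G v 1 (x + (1 - x)) := PlaceData.G_add (fun _ => h) (fun _ => by omega)
    have h2 : x + (1 - x) = 1 := by ring
    rw [h2] at h1
    have h3 := h1 one_ne_zero
    rw [PlaceData.ord_one] at h3
    omega
  set ω : K := Q.D x / (x * (1 - x)) with hω
  have hω0 : ω ≠ 0 := div_ne_zero hD (mul_ne_zero hx0 hx1)
  have hordω : ∀ v, Q.ord v ω = Q.ord v (Q.D x) - (Q.ord v x + Q.ord v (1 - x)) := by
    intro v
    rw [hω, PlaceData.ord_div hD (mul_ne_zero hx0 hx1), Q.ord_mul v _ _ hx0 hx1]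
  have hd1 : ∀ v, Q.ord v x - 1 - Q.loss v ≤ Q.ord v (Q.D x) := by
    intro v
    have := Q.D_ord v x 1 (Q.ord v x) hx0 hD le_rfl
    push_cast at this
    simpa using this
  have hd1' : ∀ v, Q.ord v (1 - x) - 1 - Q.loss v ≤ Q.ord v (Q.D x) := by
    intro v
    have hD' : Q.D (1 - x) ≠ 0 := by
      rw [hDx']
      exact neg_ne_zero.mpr hD
    have := Q.D_ord v (1 - x) 1 (Q.ord v (1 - x)) hx1 hD' le_rfl
    push_cast at this
    have h2 : Q.ord v (Q.D (1 - x)) = Q.ord v (Q.D x) := by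
      rw [hDx', PlaceData.ord_neg hD]
    rw [Function.iterate_one, h2] at this
    simpa using this
  have hd2 : ∀ v, 0 ≤ Q.ord v x → -Q.loss v ≤ Q.ord v (Q.D x) := by
    intro v h
    have := Q.D_ord' v x 1 hx0 hD h
    push_cast at this
    simpa using this
  have hloc : ∀ v, max 0 (-Q.ord v x) - (if Q.ord v x ≠ 0 ∨ Q.ord v (1 - x) ≠ 0 then 1 else 0) -
      Q.loss v ≤ Q.ord v ω := by
    intro v
    rw [hordω]
    have a1 := hd1 v
    have a2 := hd1' v
    have a3 := hd2 v
    have a4 := Q.loss_nonneg v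
    rcases lt_trichotomy (Q.ord v x) 0 with h | h | h
    · rw [if_pos (Or.inl h.ne)]
      have b1 := h1x v (Q.ord v x) h.le le_rfl
      have b2 : Q.ord v (1 - x) ≤ Q.ord v x := by
        by_contra hcon
        push Not at hcon
        have := h1x' v (Q.ord v x + 1) (by omega) (by omega)
        omega
      omega
    · have b1 := h1x v 0 le_rfl (by omega)
      have a5 := a3 (by omega)
      by_cases h2 : Q.ord v (1 - x) = 0
      · rw [if_neg (by push Not; exact ⟨h, h2⟩)]
        omega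
      · rw [if_pos (Or.inr h2)]
        omega
    · rw [if_pos (Or.inl h.ne')]
      have b1 := h1x v 0 le_rfl h.le
      have b2 := h1x'' v (by omega)
      omega
  have hprod := Q.prod_formula ω hω0 S (by
    intro v hv
    have h1 := hloc v
    have h2 : Q.loss v = 0 := Q.loss_supp v (fun h => hv (hS h))
    rw [hx v hv, h2, if_neg (by push Not; exact ⟨rfl, hx' v hv⟩)] at h1
    simpa using h1)
  have hloss : ∑ v ∈ S, Q.wt v * Q.loss v ≤ Q.lossT := by
    refine le_trans (le_of_eq ?_) Q.loss_sum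
    symm
    apply sum_subset hS
    intro v _ hv
    rw [Q.loss_supp v hv, mul_zero]
  have hsum : ∑ v ∈ S, (Q.wt v * max 0 (-Q.ord v x) -
      Q.wt v * (if Q.ord v x ≠ 0 ∨ Q.ord v (1 - x) ≠ 0 then 1 else 0) - Q.wt v * Q.loss v) ≤
      ∑ v ∈ S, Q.wt v * Q.ord v ω := by
    apply sum_le_sum
    intro v _
    have := mul_le_mul_of_nonneg_left (hloc v) (Q.wt_nonneg v)
    linarith
  rw [sum_sub_distrib, sum_sub_distrib] at hsum
  linarith

open Classical in
/-- Mason's inequality for the Green functions. -/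
theorem mason_GG (Q : PlaceData k K) (a : Q.Pl → K → ℝ) (ρ : Q.Pl → ℝ) (z i j l : K)
    (h1 : z ≠ i) (h2 : z ≠ j) (h3 : z ≠ l) (h4 : D3 i j l)
    (hD : Q.D (((z - i) * (j - l)) / ((z - l) * (j - i))) ≠ 0) (S : Finset Q.Pl)
    (hS : Q.lossS ⊆ S) (hsupp : ∀ v, v ∉ S → ∀ x ∈ ({z, i, j, l} : Finset K),
      ∀ y ∈ ({z, i, j, l} : Finset K), x ≠ y → Q.ord v (x - y) = 0) :
    ∑ v ∈ S, (Q.wt v : ℝ) * max 0 (dz (GG Q v (a v) (ρ v)) z i j l) ≤
      (Q.lossT : ℝ) + ∑ v ∈ S, (Q.wt v : ℝ) *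
        (if Spc (GG Q v (a v) (ρ v)) z i j l then 1 else 0) := by
  obtain ⟨hij, hil, hjl⟩ := h4
  have n1 := sub_ne_zero.mpr h1
  have n2 := sub_ne_zero.mpr h2
  have n3 := sub_ne_zero.mpr h3
  have n4 := sub_ne_zero.mpr hij
  have n4' := sub_ne_zero.mpr hij.symm
  have n5 := sub_ne_zero.mpr hil
  have n5' := sub_ne_zero.mpr hil.symm
  have n6 := sub_ne_zero.mpr hjl
  set x : K := ((z - i) * (j - l)) / ((z - l) * (j - i)) with hx
  have hord : ∀ v, Q.ord v x = Q.ord v (z - i) + Q.ord v (j - l) -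
      (Q.ord v (z - l) + Q.ord v (j - i)) := by
    intro v
    rw [hx, PlaceData.ord_div (mul_ne_zero n1 n6) (mul_ne_zero n3 n4'), Q.ord_mul v _ _ n1 n6,
      Q.ord_mul v _ _ n3 n4']
  have h1x : 1 - x = ((l - i) * (z - j)) / ((z - l) * (j - i)) := by
    rw [hx]
    field_simp
    ring
  have hord' : ∀ v, Q.ord v (1 - x) = Q.ord v (l - i) + Q.ord v (z - j) -
      (Q.ord v (z - l) + Q.ord v (j - i)) := by
    intro v
    rw [h1x, PlaceData.ord_div (mul_ne_zero n5' n2) (mul_ne_zero n3 n4'), Q.ord_mul v _ _ n5' n2,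
      Q.ord_mul v _ _ n3 n4']
  have hsym : ∀ v : Q.Pl, ∀ x y : K, x ≠ y → Q.ord v (x - y) = Q.ord v (y - x) := by
    intro v x y hxy
    rw [← neg_sub y x, PlaceData.ord_neg (sub_ne_zero.mpr hxy.symm)]
  have hm := mason Q x hD S hS (by
    intro v hv
    have := hsupp v hv
    rw [hord, this z (by simp) i (by simp) h1, this j (by simp) l (by simp) hjl,
      this z (by simp) l (by simp) h3, this j (by simp) i (by simp) hij.symm]
    ring) (by
    intro v hv
    have := hsupp v hv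
    rw [hord', this l (by simp) i (by simp) hil.symm, this z (by simp) j (by simp) h2,
      this z (by simp) l (by simp) h3, this j (by simp) i (by simp) hij.symm]
    ring)
  have hdz : ∀ v, dz (GG Q v (a v) (ρ v)) z i j l = ((-Q.ord v x : ℤ) : ℝ) := by
    intro v
    rw [hord]
    unfold dz GG
    rw [hsym v i j hij]
    push_cast
    ring
  have hspc : ∀ v, Spc (GG Q v (a v) (ρ v)) z i j l ↔ (Q.ord v x ≠ 0 ∨ Q.ord v (1 - x) ≠ 0) := by
    intro v
    unfold Spc
    apply or_congr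
    · rw [hord]
      unfold GG
      rw [hsym v i j hij]
      constructor
      · intro h h'
        apply h
        have h'' : ((Q.ord v (z - i) + Q.ord v (j - l) - (Q.ord v (z - l) + Q.ord v (j - i)) : ℤ) :
          ℝ) = 0 := by exact_mod_cast h'
        push_cast at h''
        linarith
      · intro h h'
        apply h
        have h'' : ((Q.ord v (z - i) + Q.ord v (j - l) - (Q.ord v (z - l) + Q.ord v (j - i)) : ℤ) :
          ℝ) = 0 := by
          push_cast
          linarith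
        exact_mod_cast h''
    · rw [hord']
      unfold GG
      rw [hsym v i j hij, hsym v i l hil]
      constructor
      · intro h h'
        apply h
        have h'' : ((Q.ord v (l - i) + Q.ord v (z - j) - (Q.ord v (z - l) + Q.ord v (j - i)) : ℤ) :
          ℝ) = 0 := by exact_mod_cast h'
        push_cast at h''
        linarith
      · intro h h'
        apply h
        have h'' : ((Q.ord v (l - i) + Q.ord v (z - j) - (Q.ord v (z - l) + Q.ord v (j - i)) : ℤ) :
          ℝ) = 0 := by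
          push_cast
          linarith
        exact_mod_cast h''
  have e1 : ∑ v ∈ S, (Q.wt v : ℝ) * max 0 (dz (GG Q v (a v) (ρ v)) z i j l) =
      ((∑ v ∈ S, Q.wt v * max 0 (-Q.ord v x) : ℤ) : ℝ) := by
    push_cast
    apply sum_congr rfl
    intro v _
    rw [hdz]
    push_cast
    rfl
  have e2 : ∑ v ∈ S, (Q.wt v : ℝ) * (if Spc (GG Q v (a v) (ρ v)) z i j l then 1 else 0) =
      ((∑ v ∈ S, Q.wt v * (if Q.ord v x ≠ 0 ∨ Q.ord v (1 - x) ≠ 0 then 1 else 0) : ℤ) : ℝ) := by
    push_cast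
    apply sum_congr rfl
    intro v _
    simp only [hspc]
  rw [e1, e2]
  exact_mod_cast hm

end Pool.Agent.V7H78.RP.I
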